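import Mathlib
import Pool.Agent.Lib.MP_72f1d0_gt.Defs3

/-! The non-periodic Euclidean model and the statements of the two local theorems. -/

open scoped ContDiff Topology

namespace Pool.Agent.Lib.MP_72f1d0_gt.V3

/-- A framed Engel structure on `G` with `W` characteristic; no periodicity is assumed. -/
structure Ctx0 where
  e : G → (G →L[ℝ] G)
  om : G → (G →L[ℝ] G)
  e_smooth : ContDiff ℝ ∞ e
  om_smooth : ContDiff ℝ ∞ om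
  om_e : ∀ p v, om p (e p v) = v
  e_om : ∀ p v, e p (om p v) = v
  brXW : ∀ p, (brk e om p vX vW).2 = Complex.I
  brXZ : ∀ p, al (brk e om p vX vZ) = -1
  nrm : ∀ p, al (brk e om p vW vZ) = 0

/-- The differential of `f` in frame coordinates. -/
noncomputable def dd0 (c : Ctx0) (f : Q → G) (q : Q) : G × G :=
  (c.om (f q) (fderiv ℝ f q (1, 0)), c.om (f q) (fderiv ℝ f q (0, 1)))

/-- Formal data along the standard plane. -/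
structure Form (c : Ctx0) (Γ : UI → Q → G × G) : Prop where
  cont : Continuous fun x : UI × Q => Γ x.1 x.2
  inj : ∀ s q, Inj (Γ s q)
  start : ∀ q, Γ 0 q = dd0 c i0 q
  tr : ∀ q, dl (Γ 1 q) ≠ 0

/-- A deformation of the formal data, supported in `K`, with `K` mapped into `V`. -/
structure Def0 (c : Ctx0) (Γ : UI → Q → G × G) (K : Set Q) (V : Set G) (H : ℝ → Q → G)
    (Kf : UI → UI → Q → G × G) : Prop where
  smooth : ContDiff ℝ ∞ fun x : ℝ × Q => H x.1 x.2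
  inj : ∀ l, Function.Injective (H l)
  h0 : H 0 = i0
  cont : Continuous fun x : UI × UI × Q => Kf x.1 x.2.1 x.2.2
  kinj : ∀ l s q, Inj (Kf l s q)
  k0 : ∀ (l : UI) q, Kf l 0 q = dd0 c (H l) q
  k1 : ∀ l q, dl (Kf l 1 q) ≠ 0
  kΓ : ∀ s q, Kf 0 s q = Γ s q
  out : ∀ q, q ∉ K → (∀ l, H l q = i0 q) ∧ ∀ l s, Kf l s q = Γ s q
  near : ∀ l, ∀ q ∈ K, H l q ∈ V

/-- The support of the deformations. -/
def KB : Set Q := {q | |q.1| ≤ 1 / 8}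

/-- If the formal line field is orientable along the core, the frame has no monodromy. -/
def SignsStmt : Prop :=
  ∀ (A : Q → G × G), Continuous A → (∀ q, dl (A q) ≠ 0) →
  ∀ w x : ℝ, w = 1 ∨ w = -1 → x = 1 ∨ x = -1 → (∀ q, A (q + (0, 1)) = rho 1 w x (A q)) →
  ∀ σ : ℝ → Q, Continuous σ → (∀ t, σ (t + 1) = σ t) →
  (∀ t, σ t ≠ 0 ∧ al (ap (A (0, t)) (σ t)) = 0) → w = 1 ∧ x = 1

/-- The formal path is made constant near the circle `s = 0`, and stays constant near `C`. -/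
def LocCStmt : Prop :=
  ∀ (c : Ctx0) (Γ : UI → Q → G × G), Form c Γ → (∀ p, c.e (p + i0 (0, 1)) = c.e p) →
  (∀ s q, Γ s (q + (0, 1)) = Γ s q) →
  ∀ C : Set Q, IsClosed C → (∀ q ∈ C, ∀ n : ℤ, q + (0, (n : ℝ)) ∈ C) →
  (∀ᶠ q in 𝓝ˢ C, ∀ s, Γ s q = Γ 0 q) →
  ∀ V : Set G, IsOpen V → (∀ p ∈ V, ∀ n : ℤ, p + i0 (0, n) ∈ V) → (∀ q ∈ KB, i0 q ∈ V) →
  ∃ (H : ℝ → Q → G) (Kf : UI → UI → Q → G × G), Def0 c Γ KB V H Kf ∧
    (∀ l q, H l (q + (0, 1)) = H l q + i0 (0, 1)) ∧ (∀ l s q, Kf l s (q + (0, 1)) = Kf l s q) ∧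
    ∀ᶠ q in 𝓝ˢ (C ∪ {q : Q | q.1 = 0}), ∀ s, Kf 1 s q = Kf 1 0 q

/-- The relative theorem on an annulus along whose core the formal line field does not wind. -/
def LocAStmt : Prop :=
  ∀ (c : Ctx0) (Γ : UI → Q → G × G), Form c Γ → (∀ p, c.e (p + i0 (0, 1)) = c.e p) →
  (∀ s q, Γ s (q + (0, 1)) = Γ s q) →
  (∃ Λ : ℝ → ℂ, Continuous Λ ∧ (∀ t, Λ (t + 1) = Λ t) ∧
    ∀ t, al (ap (Γ 1 (0, t)) ((Complex.exp (Λ t)).re, (Complex.exp (Λ t)).im)) = 0) →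
  ∀ ρ : ℝ, ρ < 1 / 8 → (∀ q : Q, ρ ≤ |q.1| → |q.1| ≤ 1 / 8 → ∀ s, Γ s q = Γ 0 q) →
  ∀ V : Set G, IsOpen V → (∀ p ∈ V, ∀ n : ℤ, p + i0 (0, n) ∈ V) → (∀ q ∈ KB, i0 q ∈ V) →
  ∃ (H : ℝ → Q → G) (Kf : UI → UI → Q → G × G), Def0 c Γ KB V H Kf ∧
    (∀ l q, H l (q + (0, 1)) = H l q + i0 (0, 1)) ∧ (∀ l s q, Kf l s (q + (0, 1)) = Kf l s q) ∧
    ∀ q ∈ KB, ∀ s, Kf 1 s q = Kf 1 0 q

end Pool.Agent.Lib.MP_72f1d0_gt.V3
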