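import Mathlib
import Pool.Agent.Lib.MP_72f1d0_gt.Defs3
import Pool.Agent.Lib.MP_72f1d0_gt.Eq.ManStmt
import Pool.Agent.Lib.MP_72f1d0_gt.Eq.ManEmb

/-! Definitions for the case of an arbitrary compact surface. -/

open scoped ContDiff Manifold Topology
open Set

namespace Pool.Agent.Lib.MP_72f1d0_gt.V3

open Eq.Stmt Eq.Man

/-! ### The planar model -/

/-- An Engel frame on `G`, with `W` characteristic. -/
structure Ctx0 where
  e : G → (G →L[ℝ] G)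
  om : G → (G →L[ℝ] G)
  e_smooth : ContDiff ℝ ∞ e
  om_smooth : ContDiff ℝ ∞ om
  om_e : ∀ p v, om p (e p v) = v
  e_om : ∀ p v, e p (om p v) = v
  brXW : ∀ p, (brk e om p vX vW).2 = Complex.I
  brXZ : ∀ p, al (brk e om p vX vZ) = -1
  brWZ : ∀ p, al (brk e om p vW vZ) = 0

/-- The differential in frame coordinates. -/
noncomputable def dd0 (c : Ctx0) (f : Q → G) (q : Q) : G × G :=
  (c.om (f q) (fderiv ℝ f q (1, 0)), c.om (f q) (fderiv ℝ f q (0, 1)))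

/-- Formal data along the standard plane, invariant under the translation by `(0, κ)`. -/
structure PForm (c : Ctx0) (κ : ℝ) (Γ : UI → Q → G × G) : Prop where
  eper : ∀ p, c.e (p + i0 (0, κ)) = c.e p
  cont : Continuous fun x : UI × Q => Γ x.1 x.2
  per : ∀ s q, Γ s (q + (0, κ)) = Γ s q
  inj : ∀ s q, Inj (Γ s q)
  g0 : ∀ q, Γ 0 q = dd0 c i0 q
  g1 : ∀ q, 0 < dl (Γ 1 q)

/-- The points at which the formal path is constant. -/
def PGood (Γ : UI → Q → G × G) : Set Q := {q | ∀ s, Γ s q = Γ 0 q}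

/-- A deformation of the standard plane and of the formal data, supported in `Z`. -/
structure Sol (c : Ctx0) (κ : ℝ) (Γ : UI → Q → G × G) (Z : Set Q) where
  H : ℝ → Q → G
  K : UI → UI → Q → G × G
  smooth : ContDiff ℝ ∞ fun x : ℝ × Q => H x.1 x.2
  inj : ∀ l, Function.Injective (H l)
  cont : Continuous fun x : UI × UI × Q => K x.1 x.2.1 x.2.2
  kinj : ∀ l s q, Inj (K l s q)
  k0 : ∀ (l : UI) q, K l 0 q = dd0 c (H l) q
  k1 : ∀ l q, dl (K l 1 q) ≠ 0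
  h0 : H 0 = i0
  kΓ : K 0 = Γ
  out : ∀ q, q ∉ Z → (∀ l, H l q = i0 q) ∧ ∀ l s, K l s q = Γ s q
  hper : ∀ l q, H l (q + (0, κ)) = H l q + i0 (0, κ)
  kper : ∀ l s q, K l s (q + (0, κ)) = K l s q

/-- The standard segment. -/
def seg : Set Q := {q | q.1 = 1 / 2 ∧ 1 / 4 ≤ q.2 ∧ q.2 ≤ 3 / 4}

/-- The standard strip. -/
def strip : Set Q := {q | 0 ≤ q.1 ∧ q.1 ≤ 1}

/-- Transversality near a segment, in the planar model. -/
def LineMStmt : Prop :=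
  ∀ (c : Ctx0) (Γ : UI → Q → G × G), PForm c 0 Γ → ∀ F : Set Q, IsClosed F →
  F ⊆ interior (PGood Γ) →
  ∃ σ : Sol c 0 Γ (Icc (0, 0) (1, 1)), F ∪ seg ⊆ interior (PGood (σ.K 1))

/-- The relative theorem on an annulus, in the planar model. -/
def AnnMStmt : Prop :=
  ∀ (c : Ctx0) (Γ : UI → Q → G × G), PForm c 1 Γ →
  ∀ Λ : Q → ℂ, Continuous Λ → (∀ q, Λ (q + (0, 1)) = Λ q) →
  (∀ q, Complex.exp (Λ q) = aa (Γ 1 q)) →
  (∀ q ∈ strip, q.1 ≤ 7 / 10 ∨ 8 / 10 ≤ q.1 → q ∈ PGood Γ) →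
  ∃ σ : Sol c 1 Γ strip, strip ⊆ PGood (σ.K 1)

/-! ### Surfaces -/

section Surface

variable {E₂ H₂ : Type*} [NormedAddCommGroup E₂] [NormedSpace ℝ E₂] [TopologicalSpace H₂]
  (J : ModelWithCorners ℝ E₂ H₂) {S : Type*} [TopologicalSpace S] [ChartedSpace H₂ S]

/-- A parametrisation of an open disc (`κ = 0`) or of an open annulus (`κ = 1`). -/
structure Chart (κ : ℝ) (ι : Q → S) : Prop where
  loc : IsLocalDiffeomorph 𝓘(ℝ, Q) J ∞ ι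
  fib : ∀ q q', ι q = ι q' ↔ ∃ n : ℤ, q' = q + (0, n * κ)

variable (S) in
/-- An isotopy of self-embeddings of the surface starting at the identity. -/
structure SIso where
  φ : ℝ → S → S
  smooth : ContMDiff (𝓘(ℝ, ℝ).prod J) J ∞ fun x : ℝ × S => φ x.1 x.2
  zero : ∀ x, φ 0 x = x
  inj : ∀ t, Function.Injective (φ t)
  imm : ∀ t x, Function.Injective (mfderiv J J (φ t) x)

variable {J} {E : Type*} [NormedAddCommGroup E] [NormedSpace ℝ E]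
  {M : Type*} [TopologicalSpace M] [ChartedSpace E M]

/-- The points at which the formal path is constant. -/
def Good (A : Data J E S M) : Set S := {x | ∀ s, A.F s x = diff J E A.f x}

variable [IsManifold J 1 S] [IsManifold 𝓘(ℝ, E) 1 M]

/-- `A` and `B` are joined by a path of formal transverse embeddings. -/
def Reach (D : Distr E M) (A B : Data J E S M) : Prop :=
  ∃ γ : UI → Data J E S M, IsPath γ ∧ (∀ l, (γ l).Formal D) ∧ γ 0 = A ∧ γ 1 = B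

/-- The formal line field does not rotate along the annulus `ι`. -/
def ZRm (D : Distr E M) (A : Data J E S M) (ι : Q → S) : Prop :=
  ∃ θ : Q → ℝ, Continuous θ ∧ (∀ q, θ (q + (0, 1)) = θ q) ∧
    ∀ q, A.F 1 (ι q) (mfderiv 𝓘(ℝ, Q) J ι q (Real.cos (θ q), Real.sin (θ q))) ∈
      derived D (A.f (ι q))

variable (J S) in
/-- Transversality near a segment. -/
def LineStmt (D : Distr E M) : Prop :=
  ∀ A : Data J E S M, A.Formal D → ∀ ι : Q → S, Chart J 0 ι → ∀ F : Set S, IsClosed F →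
  F ⊆ interior (Good A) → ∃ B, Reach D A B ∧ F ∪ ι '' seg ⊆ interior (Good B)

variable (J S) in
/-- The relative theorem on an annulus. -/
def AnnStmt (D : Distr E M) : Prop :=
  ∀ A : Data J E S M, A.Formal D → ∀ ι : Q → S, Chart J 1 ι → ZRm D A ι →
  (∀ q ∈ strip, q.1 ≤ 7 / 10 ∨ 8 / 10 ≤ q.1 → ι q ∈ Good A) →
  ∃ B, Reach D A B ∧ ι '' strip ⊆ Good B ∧ ∀ x, x ∉ ι '' strip → x ∈ Good A → x ∈ Good B

end Surface

/-! ### Line fields on a closed surface -/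

section Lines

variable {N : Type*} [TopologicalSpace N] [ChartedSpace Q N] [IsManifold 𝓘(ℝ, Q) 1 N]

/-- A continuous line field. -/
def LineField (L : N → Submodule ℝ Q) : Prop :=
  ∀ p, ∃ U : Set N, IsOpen U ∧ p ∈ U ∧ ∃ a : N → (Q →L[ℝ] ℝ),
    ContinuousOn (fun z : TangentBundle 𝓘(ℝ, Q) N => a z.1 z.2) {z | z.1 ∈ U} ∧
    ∀ x ∈ U, a x ≠ 0 ∧ ∀ v, v ∈ L x ↔ a x v = 0

/-- A vector field which is smooth up to sign. -/
def DField (V : N → Q) : Prop :=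
  ∀ p, ∃ U : Set N, IsOpen U ∧ p ∈ U ∧ ∃ W : VField Q N, SmoothOn W U ∧
    ∀ x ∈ U, W x = V x ∨ W x = -V x

/-- A smooth curve tangent to `V` up to sign. -/
structure Leaf (V : N → Q) (γ : ℝ → N) : Prop where
  smooth : ContMDiff 𝓘(ℝ, ℝ) 𝓘(ℝ, Q) ∞ γ
  vel : ∀ t, md Q γ t 1 = V (γ t) ∨ md Q γ t 1 = -V (γ t)

/-- A simple closed curve transverse to `L`. -/
structure Loop (L : N → Submodule ℝ Q) (c : ℝ → N) : Prop where
  smooth : ContMDiff 𝓘(ℝ, ℝ) 𝓘(ℝ, Q) ∞ c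
  fib : ∀ t t', c t = c t' ↔ ∃ n : ℤ, t' = t + n
  tr : ∀ t, md Q c t 1 ∉ L (c t)

/-- An injective curve transverse to `L` which crosses the box `ι` infinitely often. -/
structure Box (k : ℝ) (L : N → Submodule ℝ Q) (γ : ℝ → N) (ι : Q → N) : Prop where
  smooth : ContMDiff 𝓘(ℝ, ℝ) 𝓘(ℝ, Q) ∞ γ
  inj : Function.Injective γ
  tr : ∀ t, md Q γ t 1 ∉ L (γ t)
  chart : Chart 𝓘(ℝ, Q) 0 ι
  cone : ∀ (q : Q) (x : ℝ), ‖q‖ ≤ 10 → |x| ≤ k → md Q ι q (x, 1) ∉ L (ι q)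
  vel : ∀ t q, γ t = ι q → ‖q‖ ≤ 10 → ∃ x : ℝ, |x| ≤ 1 / 10 ∧
    (md Q γ t 1 = md Q ι q (x, 1) ∨ md Q γ t 1 = -md Q ι q (x, 1))
  often : ∀ T : ℝ, ∃ t q, T ≤ t ∧ ‖q‖ ≤ 1 ∧ γ t = ι q

/-- Three consecutive crossings of the box `ι` by the curve `γ`. -/
structure Tri (k : ℝ) (L : N → Submodule ℝ Q) (γ : ℝ → N) (ι : Q → N) (t ε : Fin 3 → ℝ)
    (ξ : Fin 3 → ℝ → ℝ) : Prop where
  smooth : ContMDiff 𝓘(ℝ, ℝ) 𝓘(ℝ, Q) ∞ γ
  inj : Function.Injective γ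
  tr : ∀ s, md Q γ s 1 ∉ L (γ s)
  chart : Chart 𝓘(ℝ, Q) 0 ι
  cone : ∀ (q : Q) (x : ℝ), ‖q‖ ≤ 10 → |x| ≤ k → md Q ι q (x, 1) ∉ L (ι q)
  sep : t 0 + 8 ≤ t 1 ∧ t 1 + 8 ≤ t 2
  sign : ∀ i, ε i = 1 ∨ ε i = -1
  xsmooth : ∀ i, ContDiffOn ℝ ∞ (ξ i) (Ioo (-4) 4)
  xbd : ∀ i y, |y| < 4 → |ξ i y| ≤ 3 ∧ |deriv (ξ i) y| ≤ 1 / 10
  pass : ∀ i y, |y| < 4 → γ (t i + ε i * y) = ι (ξ i y, y)
  only : ∀ s x y i j, t 0 ≤ s → s ≤ t 2 → |y| ≤ 2 → γ s = ι (x, y) → ξ i y ≤ x → x ≤ ξ j y →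
    ∃ m, s = t m + ε m * y

end Lines

end Pool.Agent.Lib.MP_72f1d0_gt.V3
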