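import Mathlib
import Pool.Agent.Lib.MP_72f1d0_gt.V3.Defs

/-! A field transverse to a line field, and closed leaves. -/

set_option linter.unusedSectionVars false

open scoped ContDiff Manifold Topology
open Set Filter

namespace Pool.Agent.Lib.MP_72f1d0_gt.V3

open Eq.Stmt Eq.Man

section Lines

variable {N : Type*} [TopologicalSpace N] [ChartedSpace Q N] [IsManifold 𝓘(ℝ, Q) ∞ N]
  [T2Space N] [CompactSpace N] {L : N → Submodule ℝ Q} {V : N → Q}

namespace FieldAux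

theorem sign_pos_mul {c r : ℝ} (hc : 0 < c) : Real.sign (c * r) = Real.sign r := by
  rcases lt_trichotomy r 0 with h | h | h
  · rw [Real.sign_of_neg h, Real.sign_of_neg (mul_neg_of_pos_of_neg hc h)]
  · rw [h, mul_zero]
  · rw [Real.sign_of_pos h, Real.sign_of_pos (mul_pos hc h)]

theorem sign_neg_mul {c r : ℝ} (hc : c < 0) : Real.sign (c * r) = -Real.sign r := by
  have : c * r = -((-c) * r) := by ring
  rw [this, Real.sign_neg, sign_pos_mul (neg_pos.mpr hc)]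

theorem sign_self (r : ℝ) : Real.sign r * r = |r| := by
  rcases lt_trichotomy r 0 with h | h | h
  · rw [Real.sign_of_neg h, abs_of_neg h]; ring
  · simp [h]
  · rw [Real.sign_of_pos h, abs_of_pos h]; ring

theorem prop_of_ker {α a : Q →L[ℝ] ℝ} (ha : a ≠ 0) (h : ∀ v, α v = 0 ↔ a v = 0) :
    ∃ c : ℝ, c ≠ 0 ∧ ∀ v, α v = c * a v := by
  obtain ⟨w, hw⟩ : ∃ w, a w ≠ 0 := by
    by_contra hh
    push Not at hh
    exact ha (ContinuousLinearMap.ext hh)
  refine ⟨α w / a w, div_ne_zero (fun h0 => hw ((h w).1 h0)) hw, fun v => ?_⟩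
  have h1 : a (v - (a v / a w) • w) = 0 := by
    rw [map_sub, map_smul, smul_eq_mul, div_mul_cancel₀ _ hw, sub_self]
  have h2 := (h _).2 h1
  rw [map_sub, map_smul, smul_eq_mul, sub_eq_zero] at h2
  rw [h2]
  field_simp

theorem sign_eventually {X : Type*} [TopologicalSpace X] {f : X → ℝ} {x : X}
    (hf : ContinuousAt f x) (h0 : f x ≠ 0) :
    ∀ᶠ y in 𝓝 x, Real.sign (f y) = Real.sign (f x) := by
  rcases lt_or_gt_of_ne h0 with h | h
  · filter_upwards [hf.eventually (gt_mem_nhds h)] with y hy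
    rw [Real.sign_of_neg h, Real.sign_of_neg hy]
  · filter_upwards [hf.eventually (lt_mem_nhds h)] with y hy
    rw [Real.sign_of_pos h, Real.sign_of_pos hy]

theorem pair_cont {U : Set N} (hU : IsOpen U) {a : N → (Q →L[ℝ] ℝ)}
    (ha : ContinuousOn (fun z : TangentBundle 𝓘(ℝ, Q) N => a z.1 z.2) {z | z.1 ∈ U})
    {W : N → Q} {x : N} (hx : x ∈ U)
    (hW : ContinuousAt (fun y => (⟨y, W y⟩ : TangentBundle 𝓘(ℝ, Q) N)) x) :
    ContinuousAt (fun y => a y (W y)) x := by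
  have ho : IsOpen {z : TangentBundle 𝓘(ℝ, Q) N | z.1 ∈ U} :=
    hU.preimage (FiberBundle.continuous_proj Q (TangentSpace 𝓘(ℝ, Q)))
  exact ContinuousAt.comp (f := fun y => (⟨y, W y⟩ : TangentBundle 𝓘(ℝ, Q) N))
    (ha.continuousAt (ho.mem_nhds hx)) hW

theorem exists_local (hL : LineField L) (p : N) :
    ∃ O ∈ 𝓝 p, ∃ W : N → Q, ∀ x ∈ O, W x ∉ L x ∧
      ContMDiffAt 𝓘(ℝ, Q) 𝓘(ℝ, Q).tangent ∞
        (fun y => (⟨y, W y⟩ : TangentBundle 𝓘(ℝ, Q) N)) x := by
  obtain ⟨U, hU, hp, a, ha, h⟩ := hL p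
  obtain ⟨u, hu⟩ : ∃ u, a p u ≠ 0 := by
    by_contra hh
    push Not at hh
    exact (h p hp).1 (ContinuousLinearMap.ext hh)
  have hs : p ∈ (chartAt Q p).source := mem_chart_source Q p
  have c := pair_cont hU ha (W := fun y => trs Q p y (tr Q p p u)) hp
    (trs_smooth hs _).continuousAt
  have h0 : a p (trs Q p p (tr Q p p u)) ≠ 0 := by rwa [trs_tr hs]
  refine ⟨{y | y ∈ U ∧ y ∈ (chartAt Q p).source ∧ a y (trs Q p y (tr Q p p u)) ≠ 0}, ?_,
    fun y => trs Q p y (tr Q p p u), fun x hx =>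
      ⟨fun hm => hx.2.2 (((h x hx.1).2 _).1 hm), trs_smooth hx.2.1 _⟩⟩
  filter_upwards [hU.mem_nhds hp, (chartAt Q p).open_source.mem_nhds hs,
    c.eventually_ne h0] with y h1 h2 h3 using ⟨h1, h2, h3⟩

theorem vel_cont {γ : ℝ → N} (hγ : ContMDiff 𝓘(ℝ, ℝ) 𝓘(ℝ, Q) ∞ γ) :
    Continuous fun t => (⟨γ t, md Q γ t 1⟩ : TangentBundle 𝓘(ℝ, Q) N) :=
  (hγ.continuous_tangentMap (by simp)).comp
    ((tangentBundleModelSpaceHomeomorph 𝓘(ℝ, ℝ)).symm.continuous.comp
      (continuous_id.prodMk (continuous_const (y := (1 : ℝ)))))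

theorem loc_sign (h0 : ∀ x, V x ≠ 0) {γ : ℝ → N} (hγ : Leaf V γ) {t₀ : ℝ} {U : Set N}
    (hU : IsOpen U) (ht : γ t₀ ∈ U) {W : N → Q} (hW : SmoothOn (E := Q) (M := N) W U)
    (h : ∀ x ∈ U, W x = V x ∨ W x = -V x) :
    ∃ ε : ℝ, (ε = 1 ∨ ε = -1) ∧ ∀ᶠ t in 𝓝 t₀, md Q γ t 1 = ε • (W (γ t) : Q) := by
  have hc := hγ.smooth.continuous
  have hs : γ t₀ ∈ (chartAt Q (γ t₀)).source := mem_chart_source Q _
  have e1 : ∀ᶠ t in 𝓝 t₀, γ t ∈ U := hc.continuousAt.preimage_mem_nhds (hU.mem_nhds ht)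
  have e2 : ∀ᶠ t in 𝓝 t₀, γ t ∈ (chartAt Q (γ t₀)).source :=
    hc.continuousAt.preimage_mem_nhds ((chartAt Q (γ t₀)).open_source.mem_nhds hs)
  have c1 : ContinuousAt (fun t => tr Q (γ t₀) (γ t) (md Q γ t 1)) t₀ :=
    ContinuousAt.comp (f := fun t => (⟨γ t, md Q γ t 1⟩ : TangentBundle 𝓘(ℝ, Q) N))
      (tr_smooth (p := γ t₀) (z := ⟨γ t₀, md Q γ t₀ 1⟩) hs).continuousAt
      (vel_cont hγ.smooth).continuousAt
  have c2 : ContinuousAt (fun t => tr Q (γ t₀) (γ t) (W (γ t))) t₀ :=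
    ContinuousAt.comp (f := fun t => (⟨γ t, W (γ t)⟩ : TangentBundle 𝓘(ℝ, Q) N))
      (tr_smooth (p := γ t₀) (z := ⟨γ t₀, W (γ t₀)⟩) hs).continuousAt
      (ContinuousAt.comp (f := γ) (g := fun p => (⟨p, W p⟩ : TangentBundle 𝓘(ℝ, Q) N))
        ((hW.contMDiffAt (hU.mem_nhds ht)).continuousAt) hc.continuousAt)
  have alt : ∀ t, γ t ∈ U → md Q γ t 1 = (W (γ t) : Q) ∨ md Q γ t 1 = -(W (γ t) : Q) := by
    intro t h1
    rcases hγ.vel t with h2 | h2 <;> rcases h _ h1 with h3 | h3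
    · exact Or.inl (h2.trans h3.symm)
    · exact Or.inr (h2.trans (neg_eq_iff_eq_neg.2 h3).symm)
    · exact Or.inr (h2.trans (congrArg Neg.neg h3.symm))
    · exact Or.inl (h2.trans h3.symm)
  have hw : tr Q (γ t₀) (γ t₀) (W (γ t₀)) ≠ 0 := fun h1 => by
    have h2 := trs_tr hs (W (γ t₀) : Q)
    rw [h1, map_zero] at h2
    rcases h _ ht with h3 | h3
    · exact h0 _ (h3.symm.trans h2.symm)
    · exact h0 _ (neg_eq_zero.1 (h3.symm.trans h2.symm))
  rcases alt t₀ ht with h1 | h1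
  · refine ⟨1, Or.inl rfl, ?_⟩
    have h2 : tr Q (γ t₀) (γ t₀) (md Q γ t₀ 1) + tr Q (γ t₀) (γ t₀) (W (γ t₀)) ≠ 0 := by
      rw [h1, ← two_smul ℝ]
      exact smul_ne_zero two_ne_zero hw
    filter_upwards [e1, (c1.add c2).eventually_ne h2] with t a1 a2
    rcases alt t a1 with a3 | a3
    · rw [a3, one_smul]
    · exact absurd (by rw [Pi.add_apply, a3, map_neg, neg_add_cancel]) a2
  · refine ⟨-1, Or.inr rfl, ?_⟩
    have h2 : tr Q (γ t₀) (γ t₀) (md Q γ t₀ 1) - tr Q (γ t₀) (γ t₀) (W (γ t₀)) ≠ 0 := by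
      rw [h1, map_neg, ← neg_add', ← two_smul ℝ]
      exact neg_ne_zero.2 (smul_ne_zero two_ne_zero hw)
    filter_upwards [e1, (c1.sub c2).eventually_ne h2] with t a1 a2
    rcases alt t a1 with a3 | a3
    · exact absurd (by rw [Pi.sub_apply, a3, sub_self]) a2
    · rw [a3, neg_one_smul]

theorem int_curve {γ : ℝ → N} (hγ : ContMDiff 𝓘(ℝ, ℝ) 𝓘(ℝ, Q) ∞ γ) {t₀ : ℝ} {W : N → Q}
    (h : ∀ᶠ t in 𝓝 t₀, md Q γ t 1 = W (γ t)) : IsMIntegralCurveAt (I := 𝓘(ℝ, Q)) γ W t₀ := by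
  filter_upwards [h] with t ht
  have h1 := ((hγ t).mdifferentiableAt (by simp)).hasMFDerivAt
  have h2 : md Q γ t = (1 : ℝ →L[ℝ] ℝ).smulRight (W (γ t) : Q) :=
    ContinuousLinearMap.ext_ring (by simpa using ht)
  exact h2 ▸ h1

theorem leaf_unique (hV : DField V) (h0 : ∀ x, V x ≠ 0) {γ δ : ℝ → N} (hγ : Leaf V γ)
    (hδ : Leaf V δ) {t₀ : ℝ} (h₁ : γ t₀ = δ t₀) (h₂ : md Q γ t₀ 1 = md Q δ t₀ 1) : γ = δ := by
  have key : ∀ t, γ t = δ t → (∃ᶠ s in 𝓝 t, γ s = δ s ∧ md Q γ s 1 = md Q δ s 1) →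
      γ =ᶠ[𝓝 t] δ := by
    intro t ht hf
    obtain ⟨U, hU, hp, W, hW, h⟩ := hV (γ t)
    obtain ⟨ε, hε, e1⟩ := loc_sign h0 hγ hU hp hW h
    obtain ⟨ε', -, e2⟩ := loc_sign h0 hδ hU (ht ▸ hp) hW h
    have e3 : ∀ᶠ s in 𝓝 t, γ s ∈ U :=
      hγ.smooth.continuous.continuousAt.preimage_mem_nhds (hU.mem_nhds hp)
    obtain ⟨s, ⟨a1, a2⟩, a3, a4, a5⟩ := (hf.and_eventually (e1.and (e2.and e3))).exists
    have hw : (W (γ s) : Q) ≠ 0 := fun h1 => by
      rcases h _ a5 with h3 | h3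
      · exact h0 _ (h3.symm.trans h1)
      · exact h0 _ (neg_eq_zero.1 (h3.symm.trans h1))
    have : ε = ε' := by
      rw [a3, a4, ← a1] at a2
      exact smul_left_injective ℝ hw a2
    subst this
    have hs : ContMDiffAt 𝓘(ℝ, Q) 𝓘(ℝ, Q).tangent ∞
        (fun x => (⟨x, ε • W x⟩ : TangentBundle 𝓘(ℝ, Q) N)) (γ t) :=
      ContMDiffAt.smul_section (V := TangentSpace 𝓘(ℝ, Q)) (s := W) (f := fun _ => ε)
        contMDiffAt_const (hW.contMDiffAt (hU.mem_nhds hp))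
    exact isMIntegralCurveAt_eventuallyEq_of_contMDiffAt_boundaryless (I := 𝓘(ℝ, Q))
      (v := fun x => ε • W x) (hs.of_le (by simp)) (int_curve hγ.smooth e1)
      (int_curve hδ.smooth e2) ht
  have hS : IsClopen {t | γ =ᶠ[𝓝 t] δ} := by
    refine ⟨isClosed_iff_frequently.2 fun t ht => key t ?_ ?_, isOpen_setOfPred_eventually_nhds⟩
    · exact tendsto_nhds_unique_of_frequently_eq hγ.smooth.continuous.continuousAt
        hδ.smooth.continuous.continuousAt (ht.mono fun s hs => hs.self_of_nhds)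
    · refine ht.mono fun s hs => ⟨hs.self_of_nhds, ?_⟩
      have : md Q γ s = md Q δ s := Filter.EventuallyEq.mfderiv_eq hs
      rw [this]
  have := hS.eq_univ ⟨t₀, key t₀ h₁ (Frequently.filter_mono
    (frequently_pure.2 ⟨h₁, h₂⟩) (pure_le_nhds t₀))⟩
  funext t
  exact (show t ∈ {t | γ =ᶠ[𝓝 t] δ} from this ▸ mem_univ t).self_of_nhds

theorem md_aff {γ : ℝ → N} (hγ : ContMDiff 𝓘(ℝ, ℝ) 𝓘(ℝ, Q) ∞ γ) (a b t : ℝ) :
    md Q (fun s => γ (a * s + b)) t 1 = a • md Q γ (a * t + b) 1 := by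
  have h := md_comp (E := Q) (g := γ) (k := fun s => a * s + b) (x := t)
    (((hasDerivAt_id t).const_mul a).add_const b).hasFDerivAt
    ((hγ _).mdifferentiableAt (by simp))
  have h' : md Q (fun s => γ (a * s + b)) t = _ := h
  rw [h', ← map_smul]
  simp

theorem aff_smooth {γ : ℝ → N} (hγ : ContMDiff 𝓘(ℝ, ℝ) 𝓘(ℝ, Q) ∞ γ) (a b : ℝ) :
    ContMDiff 𝓘(ℝ, ℝ) 𝓘(ℝ, Q) ∞ fun s => γ (a * s + b) :=
  hγ.comp (ContDiff.contMDiff (by fun_prop))

theorem leaf_aff {γ : ℝ → N} (hγ : Leaf V γ) {a : ℝ} (ha : a = 1 ∨ a = -1) (b : ℝ) :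
    Leaf V fun s => γ (a * s + b) := by
  refine ⟨aff_smooth hγ.smooth a b, fun t => ?_⟩
  rw [md_aff hγ.smooth]
  rcases ha with rfl | rfl <;> rcases hγ.vel (_ * t + b) with h | h <;> rw [h] <;> simp

theorem leaf_period (hV : DField V) (h0 : ∀ x, V x ≠ 0) {γ : ℝ → N} (hγ : Leaf V γ)
    {t t' : ℝ} (h : γ t = γ t') (s : ℝ) : γ (s + (t' - t)) = γ s := by
  have hv : md Q γ t 1 = md Q γ t' 1 ∨ md Q γ t 1 = -md Q γ t' 1 := by
    rcases hγ.vel t with h1 | h1 <;> rcases hγ.vel t' with h2 | h2 <;> rw [h1, h2, h] <;> simp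
  rcases hv with hv | hv
  · have e : 1 * t + (t' - t) = t' := by ring
    have := leaf_unique hV h0 hγ (leaf_aff hγ (Or.inl rfl) (t' - t)) (t₀ := t) (by rw [e, h])
      (by rw [md_aff hγ.smooth, e, one_smul, hv])
    have h2 := congrFun this s
    rw [h2, one_mul]
  · exfalso
    have e : -1 * t + (t + t') = t' := by ring
    have := leaf_unique hV h0 hγ (leaf_aff hγ (Or.inr rfl) (t + t')) (t₀ := t) (by rw [e, h])
      (by rw [md_aff hγ.smooth, e, neg_one_smul, hv])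
    have h2 := md_aff hγ.smooth (-1) (t + t') ((t + t') / 2)
    rw [← this, show -1 * ((t + t') / 2) + (t + t') = (t + t') / 2 by ring, neg_one_smul,
      eq_neg_iff_add_eq_zero, ← two_smul ℝ, smul_eq_zero_iff_right two_ne_zero] at h2
    rcases hγ.vel ((t + t') / 2) with h3 | h3
    · exact h0 _ (h3.symm.trans h2)
    · exact h0 _ (neg_eq_zero.1 (h3.symm.trans h2))

end FieldAux

open FieldAux

theorem exists_dfield (hL : LineField L) : ∃ V : N → Q, DField V ∧ ∀ x, V x ∉ L x := by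
  classical
  choose O hO W hW using exists_local hL
  have hb : ∀ p : N, ∃ b : SmoothBumpFunction 𝓘(ℝ, Q) p, tsupport b ⊆ O p := fun p => by
    obtain ⟨b, -, hb⟩ := (SmoothBumpFunction.nhds_basis_tsupport (I := 𝓘(ℝ, Q)) p).mem_iff.1 (hO p)
    exact ⟨b, hb⟩
  choose b hb using hb
  obtain ⟨t, -, ht⟩ := isCompact_univ.elim_nhds_subcover (fun c => Function.support (b c))
    fun c _ => (b c).support_mem_nhds
  choose U hU hp a ha h using hL
  refine ⟨fun x => ∑ i ∈ t, (b i x * Real.sign (a x x (W i x))) • W i x, fun p => ?_, fun x => ?_⟩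
  · refine ⟨U p, hU p, hp p,
      fun x => ∑ i ∈ t, (b i x * Real.sign (a p x (W i x))) • W i x, ?_, fun x hx => ?_⟩
    · intro x hx
      refine ContMDiffAt.contMDiffWithinAt ?_
      refine ContMDiffAt.sum_section (V := TangentSpace 𝓘(ℝ, Q))
        (t := fun i x => (b i x * Real.sign (a p x (W i x))) • W i x) fun i _ => ?_
      by_cases hi : x ∈ tsupport (b i)
      · obtain ⟨h1, h2⟩ := hW i x (hb i hi)
        have h3 := sign_eventually (pair_cont (hU p) (ha p) hx h2.continuousAt)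
          fun h0 => h1 (((h p x hx).2 _).2 h0)
        have h4 : ContMDiffAt 𝓘(ℝ, Q) 𝓘(ℝ, ℝ) ∞
            (fun y => b i y * Real.sign (a p x (W i x))) x :=
          ((b i).contMDiff x).mul contMDiffAt_const
        refine (ContMDiffAt.smul_section (V := TangentSpace 𝓘(ℝ, Q)) (s := W i) h4
          h2).congr_of_eventuallyEq ?_
        filter_upwards [h3] with y hy
        rw [hy]
        rfl
      · refine (Bundle.contMDiffAt_zeroSection ℝ (TangentSpace 𝓘(ℝ, Q)) (IB := 𝓘(ℝ, Q))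
          (F := Q) (n := ∞) (x := x)).congr_of_eventuallyEq ?_
        filter_upwards [notMem_tsupport_iff_eventuallyEq.mp hi] with y hy
        rw [show b i y = 0 from hy, zero_mul, zero_smul]
        rfl
    · obtain ⟨c, hc, hc'⟩ := prop_of_ker (α := a x x) (h p x hx).1 fun v =>
        ((h x x (hp x)).2 v).symm.trans ((h p x hx).2 v)
      rcases lt_or_gt_of_ne hc with h1 | h1
      · right
        simp only [hc', sign_neg_mul h1, mul_neg, neg_smul, Finset.sum_neg_distrib, neg_neg]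
        rfl
      · left
        simp only [hc', sign_pos_mul h1]
        rfl
  · intro hm
    have h0 := ((h x x (hp x)).2 _).1 hm
    simp only [map_sum, map_smul, smul_eq_mul, mul_assoc, sign_self] at h0
    obtain ⟨i, hi, hx⟩ := mem_iUnion₂.mp (ht (mem_univ x))
    have h1 := (Finset.sum_eq_zero_iff_of_nonneg fun j _ =>
      mul_nonneg (b j).nonneg (abs_nonneg _)).1 h0 i hi
    rcases mul_eq_zero.1 h1 with h2 | h2
    · exact hx h2
    · exact (hW i x (hb i (subset_tsupport _ hx))).1 (((h x x (hp x)).2 _).2 (abs_eq_zero.1 h2))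

theorem leaf_loop (hV : DField V) (hL : ∀ x, V x ∉ L x) {γ : ℝ → N} (hγ : Leaf V γ) :
    Function.Injective γ ∨ ∃ c, Loop L c := by
  have h0 : ∀ x, V x ≠ 0 := fun x h => hL x (h ▸ (L x).zero_mem)
  by_cases hi : Function.Injective γ
  · exact Or.inl hi
  right
  let P : AddSubgroup ℝ :=
    { carrier := {T | ∀ s, γ (s + T) = γ s}
      zero_mem' := fun s => by rw [add_zero]
      add_mem' := fun {a b} ha hb s => by rw [← add_assoc, hb, ha]
      neg_mem' := fun {a} ha s => by rw [← ha, neg_add_cancel_right] }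
  have hP : ∀ t t', γ t = γ t' ↔ t' - t ∈ P := fun t t' =>
    ⟨fun h => leaf_period hV h0 hγ h, fun h => by rw [← h t, add_sub_cancel]⟩
  have hc := hγ.smooth.continuous
  have hcl : IsClosed (P : Set ℝ) := by
    have : (P : Set ℝ) = ⋂ s, {T | γ (s + T) = γ s} := by
      ext T
      simp [P]
    rw [this]
    exact isClosed_iInter fun s => isClosed_eq (hc.comp (continuous_const.add continuous_id))
      continuous_const
  rcases P.dense_or_cyclic with hd | ⟨a, ha⟩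
  · exfalso
    have h1 : ∀ T, T ∈ P := fun T => by
      have := hd T
      rwa [hcl.closure_eq] at this
    have h2 : γ = fun s => γ (0 * s + 0) := funext fun s => (hP _ _).2 (h1 _)
    have h3 := md_aff hγ.smooth 0 0 0
    rw [← h2, zero_smul] at h3
    rcases hγ.vel 0 with h4 | h4
    · exact h0 _ (h4.symm.trans h3)
    · exact h0 _ (neg_eq_zero.1 (h4.symm.trans h3))
  · have hm : ∀ T, T ∈ P ↔ ∃ n : ℤ, n * a = T := fun T => by
      rw [ha, AddSubgroup.mem_closure_singleton]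
      simp
    have ha0 : a ≠ 0 := by
      rintro rfl
      refine hi fun t t' h => ?_
      obtain ⟨n, hn⟩ := (hm _).1 ((hP _ _).1 h)
      linarith
    refine ⟨fun s => γ (a * s + 0), aff_smooth hγ.smooth a 0, fun t t' => ?_, fun t => ?_⟩
    · rw [hP, hm]
      refine exists_congr fun n => ⟨fun h => ?_, fun h => by rw [h]; ring⟩
      exact mul_left_cancel₀ ha0 (by linarith)
    · rw [md_aff hγ.smooth, Submodule.smul_mem_iff _ ha0]
      rcases hγ.vel (a * t + 0) with h | h <;> rw [h]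
      · exact hL _
      · exact fun h' => hL _ ((L _).neg_mem_iff.1 h')

end Lines

end Pool.Agent.Lib.MP_72f1d0_gt.V3
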