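import Mathlib

/-! A periodic local diffeomorphism of the plane which is the identity near a segment. -/

open scoped ContDiff Topology
open Set Filter

namespace Pool.Agent.Lib.MP_72f1d0_gt.V3

/-- A bounded diffeomorphism onto its image which is the identity on `[-r, r]`. -/
theorem exists_eta {r R : ℝ} (hr : 0 < r) (hR : r < R) : ∃ η : ℝ → ℝ, ContDiff ℝ ∞ η ∧
    (∀ y, 0 < deriv η y) ∧ (∀ y, |y| ≤ r → η y = y) ∧ ∀ y, |η y| < R := by
  let χ : ContDiffBump (0 : ℝ) := ⟨r, (r + R) / 2, hr, by linarith⟩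
  obtain ⟨κ, k0, k1, k2⟩ : ∃ κ : ℝ, 0 < κ ∧ κ ≤ 1 ∧ κ ≤ (R - r) / 4 :=
    ⟨min 1 ((R - r) / 4), lt_min one_pos (by linarith), min_le_left _ _, min_le_right _ _⟩
  have hq : ∀ v : ℝ, 0 < 1 + v ^ 2 := fun v => by positivity
  let β : ℝ → ℝ := fun v => χ v * (1 - κ * (1 / (1 + v ^ 2)))
  have sβ : ContDiff ℝ ∞ β := χ.contDiff.mul (contDiff_const.sub (contDiff_const.mul
    (contDiff_const.div (contDiff_const.add (contDiff_id.pow 2)) fun v => (hq v).ne')))
  have b1 : ∀ v, 0 ≤ 1 - κ * (1 / (1 + v ^ 2)) ∧ 1 - κ * (1 / (1 + v ^ 2)) ≤ 1 := fun v => by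
    have h1 : 1 / (1 + v ^ 2) ≤ 1 := by rw [div_le_one (hq v)]; nlinarith [sq_nonneg v]
    have h2 : 0 < 1 / (1 + v ^ 2) := by positivity
    constructor <;> nlinarith
  have b2 : ∀ v, 0 ≤ β v ∧ β v ≤ 1 := fun v =>
    ⟨mul_nonneg χ.nonneg (b1 v).1, mul_le_one₀ χ.le_one (b1 v).1 (b1 v).2⟩
  let g : ℝ → ℝ := fun y => ∫ v in (0 : ℝ)..y, β v
  have dg : ∀ y, HasDerivAt g (β y) y := fun y =>
    (sβ.continuous.integral_hasStrictDerivAt 0 y).hasDerivAt
  have eg : deriv g = β := funext fun y => (dg y).deriv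
  have sg : ContDiff ℝ ∞ g :=
    contDiff_infty_iff_deriv.2 ⟨fun y => (dg y).differentiableAt, eg ▸ sβ⟩
  have dη : ∀ y, HasDerivAt (fun y => κ * Real.arctan y + g y) (κ * (1 / (1 + y ^ 2)) + β y) y :=
    fun y => ((Real.hasDerivAt_arctan y).const_mul κ).add (dg y)
  have bg0 : ∀ y, |g y| ≤ |y| := fun y => by
    have := intervalIntegral.norm_integral_le_of_norm_le_const (a := 0) (b := y) (C := 1) (f := β)
      fun v _ => by rw [Real.norm_eq_abs, abs_of_nonneg (b2 v).1]; exact (b2 v).2
    simpa using this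
  have bg : ∀ y, |g y| ≤ (r + R) / 2 := fun y => by
    have hz : ∀ a, |a| = (r + R) / 2 → (∀ v ∈ uIcc a y, (r + R) / 2 ≤ |v|) → g y = g a :=
      fun a _ ha => by
        have h1 := intervalIntegral.integral_add_adjacent_intervals
          (sβ.continuous.intervalIntegrable (μ := MeasureTheory.volume) 0 a)
          (sβ.continuous.intervalIntegrable (μ := MeasureTheory.volume) a y)
        have h2 : ∫ v in a..y, β v = 0 := by
          rw [intervalIntegral.integral_congr (g := fun _ => 0) fun v hv => by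
            simp only [β]
            rw [χ.zero_of_le_dist (by simpa using ha v hv), zero_mul]]
          simp
        simp only [g]
        rw [← h1, h2, add_zero]
    have hp : 0 < (r + R) / 2 := by linarith
    rcases le_total |y| ((r + R) / 2) with h | h
    · exact (bg0 y).trans h
    · rcases le_abs.1 h with h' | h'
      · rw [hz _ (abs_of_pos hp) fun v hv => by
          rw [uIcc_of_le h'] at hv
          exact hv.1.trans (le_abs_self v)]
        exact (bg0 _).trans (abs_of_pos hp).le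
      · have e : |-((r + R) / 2)| = (r + R) / 2 := by rw [abs_neg, abs_of_pos hp]
        rw [hz _ e fun v hv => by
          rw [uIcc_of_ge (by linarith)] at hv
          exact le_abs.2 (Or.inr (by linarith [hv.2]))]
        exact (bg0 _).trans e.le
  refine ⟨fun y => κ * Real.arctan y + g y, (contDiff_const.mul Real.contDiff_arctan).add sg,
    fun y => ?_, fun y hy => ?_, fun y => ?_⟩
  · rw [(dη y).deriv]
    exact add_pos_of_pos_of_nonneg (mul_pos k0 (by positivity)) (b2 y).1
  · have h1 : g y = ∫ v in (0 : ℝ)..y, (1 - κ * (1 / (1 + v ^ 2))) :=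
      intervalIntegral.integral_congr fun v hv => by
        simp only [β]
        rw [χ.one_of_mem_closedBall, one_mul]
        have := abs_le.1 hy
        rw [Metric.mem_closedBall, dist_zero_right, Real.norm_eq_abs, abs_le]
        rcases mem_uIcc.1 hv with h | h <;> constructor <;> linarith [h.1, h.2]
    have c1 : Continuous fun v : ℝ => κ * (1 / (1 + v ^ 2)) :=
      continuous_const.mul (continuous_const.div (by fun_prop) fun v => (hq v).ne')
    simp only
    rw [h1, intervalIntegral.integral_sub (continuous_const.intervalIntegrable _ _)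
      (c1.intervalIntegrable _ _), intervalIntegral.integral_const_mul,
      integral_one_div_one_add_sq]
    simp
  · have h1 : |Real.arctan y| < 2 := abs_lt.2
      ⟨by linarith [Real.neg_pi_div_two_lt_arctan y, Real.pi_le_four],
        by linarith [Real.arctan_lt_pi_div_two y, Real.pi_le_four]⟩
    have h2 := abs_add_le (κ * Real.arctan y) (g y)
    rw [abs_mul, abs_of_pos k0] at h2
    nlinarith [bg y]

/-- A regular closed curve which is a straight segment on `[-3/25, 31/50]`. -/
theorem exists_curve : ∃ c : ℝ → ℂ, ContDiff ℝ ∞ c ∧ (∀ θ, c (θ + 1) = c θ) ∧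
    (∀ θ, deriv c θ ≠ 0) ∧ ∀ θ : ℝ, -(3 / 25) ≤ θ → θ ≤ 31 / 50 → c θ = θ := by
  let T : ℝ → ℝ := fun y => Real.smoothTransition (10 * y - 7)
  have sT : ContDiff ℝ ∞ T := Real.smoothTransition.contDiff.comp (by fun_prop)
  have T0 : ∀ y, y ≤ 7 / 10 → T y = 0 := fun y hy =>
    Real.smoothTransition.zero_of_nonpos (by linarith)
  have T1 : ∀ y, 8 / 10 ≤ y → T y = 1 := fun y hy =>
    Real.smoothTransition.one_of_one_le (by linarith)
  obtain ⟨m, hm, em⟩ := exists_deriv_eq_slope T (by norm_num : (7 / 10 : ℝ) < 8 / 10)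
    sT.continuous.continuousOn (sT.differentiable (by simp)).differentiableOn
  rw [T0 _ le_rfl, T1 _ le_rfl] at em
  let B : ContDiffBump (3 / 4 : ℝ) := ⟨7 / 100, 12 / 100, by norm_num, by norm_num⟩
  let x : ℝ → ℝ := fun y => y - T y
  let z : ℝ → ℝ := fun y => B y * (y - m) ^ 2
  have sx : ContDiff ℝ ∞ x := contDiff_id.sub sT
  have sz : ContDiff ℝ ∞ z := B.contDiff.mul (by fun_prop)
  let p : ℝ → ℂ := fun y => (x y : ℂ) + (z y : ℂ) * Complex.I
  have sp : ContDiff ℝ ∞ p := (Complex.ofRealCLM.contDiff.comp sx).add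
    ((Complex.ofRealCLM.contDiff.comp sz).mul contDiff_const)
  have z0 : ∀ y, y ≤ 63 / 100 ∨ 87 / 100 ≤ y → z y = 0 := fun y hy => by
    simp only [z]
    rw [B.zero_of_le_dist, zero_mul]
    rw [Real.dist_eq, le_abs]
    exact hy.symm.imp (fun h => by simp only [B]; linarith) fun h => by simp only [B]; linarith
  have p0 : ∀ y, y ≤ 63 / 100 → p y = y := fun y hy => by
    simp only [p, x, z0 y (Or.inl hy), T0 y (by linarith)]; simp
  have p1 : ∀ y, 87 / 100 ≤ y → p y = ((y - 1 : ℝ) : ℂ) := fun y hy => by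
    simp only [p, x, z0 y (Or.inr hy), T1 y (by linarith)]; simp
  have dp : ∀ y, deriv p y ≠ 0 := fun y h => by
    have h1 := (sx.differentiable (by simp) y).hasDerivAt
    have h2 := (sz.differentiable (by simp) y).hasDerivAt
    have h3 : HasDerivAt p (((deriv x y : ℝ) : ℂ) + ((deriv z y : ℝ) : ℂ) * Complex.I) y :=
      h1.ofReal_comp.add (h2.ofReal_comp.mul_const _)
    rw [h3.deriv] at h
    have a1 : deriv x y = 0 := by simpa using congrArg Complex.re h
    have a2 : deriv z y = 0 := by simpa using congrArg Complex.im h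
    have a3 : deriv T y = 1 := by
      have := ((hasDerivAt_id y).sub (sT.differentiable (by simp) y).hasDerivAt).deriv
      have e : deriv x y = 1 - deriv T y := this
      linarith
    have a4 : 7 / 10 ≤ y := by
      by_contra hn
      have : T =ᶠ[𝓝 y] fun _ => 0 := by
        filter_upwards [Iio_mem_nhds (not_le.1 hn)] with v hv using T0 v hv.le
      rw [this.deriv_eq] at a3
      simp at a3
    have a5 : y ≤ 8 / 10 := by
      by_contra hn
      have : T =ᶠ[𝓝 y] fun _ => 1 := by
        filter_upwards [Ioi_mem_nhds (not_le.1 hn)] with v hv using T1 v hv.le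
      rw [this.deriv_eq] at a3
      simp at a3
    have a6 : z =ᶠ[𝓝 y] fun v => (v - m) ^ 2 := by
      filter_upwards [Ioo_mem_nhds (show 68 / 100 < y by linarith) (show y < 82 / 100 by linarith)]
        with v hv
      simp only [z]
      rw [B.one_of_mem_closedBall, one_mul]
      rw [Metric.mem_closedBall, Real.dist_eq, abs_le]
      simp only [B]
      constructor <;> linarith [hv.1, hv.2]
    have a7 : HasDerivAt (fun v => (v - m) ^ 2) (2 * (y - m)) y := by
      simpa using ((hasDerivAt_id' y).sub_const m).fun_pow 2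
    rw [a6.deriv_eq, a7.deriv] at a2
    have a8 : y = m := by linarith
    rw [a8, em] at a3
    norm_num at a3
  have loc : ∀ y₀ : ℝ, (fun y => p (Int.fract y)) =ᶠ[𝓝 y₀] fun y => p (y - ⌊y₀⌋) := fun y₀ => by
    filter_upwards [Ioo_mem_nhds (show ⌊y₀⌋ - 1 / 10 < y₀ by linarith [Int.floor_le y₀])
      (Int.lt_floor_add_one y₀)] with y hy
    rcases le_or_gt (⌊y₀⌋ : ℝ) y with h | h
    · have e1 : ⌊y⌋ = ⌊y₀⌋ := Int.floor_eq_iff.2 ⟨h, hy.2⟩
      simp only [Int.fract, e1]
    · have e1 : ⌊y⌋ = ⌊y₀⌋ - 1 := Int.floor_eq_iff.2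
        ⟨by push_cast; linarith [hy.1], by push_cast; linarith⟩
      simp only [Int.fract, e1]
      rw [p1 _ (by push_cast; linarith [hy.1]), p0 _ (by linarith)]
      push_cast; ring
  have sl : ∀ y₀ : ℝ, ContDiff ℝ ∞ fun y => p (y - ⌊y₀⌋) := fun y₀ => by fun_prop
  refine ⟨fun y => p (Int.fract y),
    contDiff_iff_contDiffAt.2 fun y => (sl y).contDiffAt.congr_of_eventuallyEq (loc y),
    fun θ => by simp only [Int.fract_add_one], fun θ => ?_, fun θ h0 h1 => ?_⟩
  · rw [(loc θ).deriv_eq, deriv_comp_sub_const]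
    exact dp _
  · rcases le_or_gt 0 θ with h | h
    · simp only [Int.fract_eq_self.2 ⟨h, by linarith⟩]
      exact p0 _ (by linarith)
    · have e : Int.fract θ = θ + 1 :=
        Int.fract_eq_iff.2 ⟨by linarith, by linarith, -1, by push_cast; ring⟩
      simp only [e]
      rw [p1 _ (by linarith)]
      simp

/-- A periodic local diffeomorphism of the plane which is the identity near a segment. -/
theorem exists_xi : ∃ (ξ : ℂ → ℂ) (ε : ℝ), 0 < ε ∧ ContDiff ℝ ∞ ξ ∧ (∀ z, ξ (z + 1) = ξ z) ∧
    (∀ z, Function.Injective (fderiv ℝ ξ z)) ∧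
    ∀ z : ℂ, -(3 / 25) < z.re → z.re < 31 / 50 → |z.im| ≤ ε → ξ z = z := by
  obtain ⟨c, sc, pc, dc, ec⟩ := exists_curve
  have s1 : ContDiff ℝ ∞ (deriv c) := sc.deriv'
  have s2 : ContDiff ℝ ∞ (deriv (deriv c)) := s1.deriv'
  have per : ∀ {g : ℝ → ℂ}, (∀ θ, g (θ + 1) = g θ) → ∀ θ, deriv g (θ + 1) = deriv g θ :=
    fun {g} hg θ => by rw [← deriv_comp_add_const, funext hg]
  have p1 := per pc
  have p2 := per p1
  obtain ⟨C, hC⟩ : ∃ C, ∀ θ, ‖deriv (deriv c) θ / deriv c θ‖ ≤ C := by
    have hp : Function.Periodic (fun θ => deriv (deriv c) θ / deriv c θ) 1 := fun θ => by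
      simp only [p1, p2]
    have hb := hp.isBounded_of_continuous one_ne_zero (s2.continuous.div s1.continuous dc)
    obtain ⟨C, hC⟩ := hb.exists_norm_le
    exact ⟨C, fun θ => hC _ ⟨θ, rfl⟩⟩
  have C0 : 0 ≤ C := (norm_nonneg _).trans (hC 0)
  have hR : 0 < 1 / (C + 1) := by positivity
  obtain ⟨η, sη, dη, eη, bη⟩ := exists_eta (half_pos hR) (half_lt_self hR)
  have sξ : ContDiff ℝ ∞ fun z : ℂ => c z.re + (η z.im : ℂ) * Complex.I * deriv c z.re :=
    (sc.comp Complex.reCLM.contDiff).add (((Complex.ofRealCLM.contDiff.comp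
      (sη.comp Complex.imCLM.contDiff)).mul contDiff_const).mul (s1.comp Complex.reCLM.contDiff))
  refine ⟨fun z => c z.re + (η z.im : ℂ) * Complex.I * deriv c z.re, 1 / (C + 1) / 2, half_pos hR,
    sξ, fun z => by simp [pc, p1], fun z => ?_, fun z h0 h1 h2 => ?_⟩
  · have a1 : HasFDerivAt (fun z : ℂ => c z.re) _ z :=
      (sc.differentiable (by simp) z.re).hasDerivAt.hasFDerivAt.comp z Complex.reCLM.hasFDerivAt
    have a2 : HasFDerivAt (fun z : ℂ => deriv c z.re) _ z :=
      (s1.differentiable (by simp) z.re).hasDerivAt.hasFDerivAt.comp z Complex.reCLM.hasFDerivAt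
    have a3 : HasFDerivAt (fun z : ℂ => (η z.im : ℂ)) _ z :=
      (sη.differentiable (by simp) z.im).hasDerivAt.ofReal_comp.hasFDerivAt.comp z
        Complex.imCLM.hasFDerivAt
    have a4 := a1.add ((a3.mul_const Complex.I).mul a2)
    rw [show fderiv ℝ (fun z : ℂ => c z.re + (η z.im : ℂ) * Complex.I * deriv c z.re) z = _ from
      a4.fderiv, injective_iff_map_eq_zero]
    intro v hv
    set k := deriv (deriv c) z.re / deriv c z.re with hk
    have e1 : deriv (deriv c) z.re = k * deriv c z.re := (div_mul_cancel₀ _ (dc _)).symm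
    have e2 : ((v.re : ℂ) + (η z.im : ℂ) * Complex.I * (v.re * k) +
        (v.im * deriv η z.im : ℝ) * Complex.I) * deriv c z.re = 0 := by
      rw [← hv]
      simp [e1]
      ring
    have e3 := (mul_eq_zero.1 e2).resolve_right (dc _)
    have e4 : v.re * (1 - η z.im * k.im) = 0 := by
      have := congrArg Complex.re e3
      simp at this
      linarith
    have e5 : |η z.im * k.im| < 1 := by
      rw [abs_mul]
      have b1 : |k.im| ≤ C := (Complex.abs_im_le_norm k).trans (hC _)
      have b2 := bη z.im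
      rw [lt_div_iff₀ (by linarith)] at b2
      nlinarith [abs_nonneg (η z.im), abs_nonneg k.im]
    have e6 : v.re = 0 := (mul_eq_zero.1 e4).resolve_right (by linarith [(abs_lt.1 e5).2])
    have e7 : v.im * deriv η z.im = 0 := by
      have := congrArg Complex.im e3
      simpa [e6] using this
    exact Complex.ext e6 ((mul_eq_zero.1 e7).resolve_right (dη _).ne')
  · have h3 : deriv c z.re = 1 := by
      have : c =ᶠ[𝓝 z.re] fun θ => (θ : ℂ) := by
        filter_upwards [Ioo_mem_nhds h0 h1] with θ hθ using ec θ hθ.1.le hθ.2.le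
      rw [this.deriv_eq]
      simpa using (hasDerivAt_id z.re).ofReal_comp.deriv
    simp only [h3, ec _ h0.le h1.le, eη _ h2, mul_one, Complex.re_add_im]

end Pool.Agent.Lib.MP_72f1d0_gt.V3
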