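import Mathlib
import Pool.Agent.Lib.MP_72f1d0_gt.V3.Defs

/-! Isotopies of a surface supported in a disc. -/

open scoped ContDiff Manifold Topology
open Set

namespace Pool.Agent.Lib.MP_72f1d0_gt.V3

open Eq.Stmt Eq.Man

section Surface

variable {E₂ H₂ : Type*} [NormedAddCommGroup E₂] [NormedSpace ℝ E₂]
  [TopologicalSpace H₂] {J : ModelWithCorners ℝ E₂ H₂} {S : Type*} [TopologicalSpace S]
  [ChartedSpace H₂ S]

namespace PlaneAux

lemma slice (φ : SIso J S) (t : ℝ) : ContMDiff J J ∞ (φ.φ t) :=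
  φ.smooth.comp (contMDiff_const.prodMk contMDiff_id)

lemma inj {ι : Q → S} (hι : Chart J 0 ι) : Function.Injective ι := fun q q' h => by
  obtain ⟨n, hn⟩ := (hι.fib q q').1 h
  rw [hn]; simp

lemma inv_smooth {ι : Q → S} (hι : Chart J 0 ι) (q : Q) :
    ContMDiffAt J 𝓘(ℝ, Q) ∞ (Function.invFun ι) (ι q) := by
  have h := hι.loc q
  refine h.localInverse_contMDiffAt.congr_of_eventuallyEq ?_
  filter_upwards [h.localInverse_eventuallyEq_right] with y hy
  have e : ι (h.localInverse y) = y := hy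
  conv_lhs => rw [← e]
  exact Function.leftInverse_invFun (inj hι) _

lemma step_inj {V : Q → Q} (hV : ContDiff ℝ ∞ V) (hb : ∀ q, ‖fderiv ℝ V q‖ ≤ 1 / 2) {s : ℝ}
    (h0 : 0 ≤ s) (h1 : s ≤ 1) : Function.Injective fun q => q + s • V q := fun q q' h => by
  have hl : ‖V q' - V q‖ ≤ 1 / 2 * ‖q' - q‖ :=
    convex_univ.norm_image_sub_le_of_norm_fderiv_le
      (fun x _ => (hV.differentiable (by simp)).differentiableAt) (fun x _ => hb x)
      (mem_univ _) (mem_univ _)
  have e : q' - q = -(s • (V q' - V q)) := by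
    have h' : q + s • V q = q' + s • V q' := h
    rw [smul_sub]
    linear_combination (exp := 1) -h'
  have n : ‖q' - q‖ ≤ 1 / 2 * ‖q' - q‖ := by
    calc ‖q' - q‖ = s * ‖V q' - V q‖ := by
          conv_lhs => rw [e]
          rw [norm_neg, norm_smul, Real.norm_of_nonneg h0]
      _ ≤ 1 * ‖V q' - V q‖ := by gcongr
      _ ≤ _ := by rw [one_mul]; exact hl
  have : ‖q' - q‖ = 0 := by linarith [norm_nonneg (q' - q)]
  exact (sub_eq_zero.1 (norm_eq_zero.1 this)).symm

lemma step_dinj {V : Q → Q} (hV : ContDiff ℝ ∞ V) (hb : ∀ q, ‖fderiv ℝ V q‖ ≤ 1 / 2) {s : ℝ}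
    (h0 : 0 ≤ s) (h1 : s ≤ 1) (q : Q) :
    Function.Injective (fderiv ℝ (fun q => q + s • V q) q) := by
  have hd : HasFDerivAt (fun q => q + s • V q)
      (ContinuousLinearMap.id ℝ Q + s • fderiv ℝ V q) q :=
    (hasFDerivAt_id q).add
      ((hV.differentiable (by simp)).differentiableAt.hasFDerivAt.const_smul s)
  rw [hd.fderiv, injective_iff_map_eq_zero]
  intro v hv
  have e : v = -(s • fderiv ℝ V q v) := by
    have h' : v + s • fderiv ℝ V q v = 0 := hv
    exact eq_neg_of_add_eq_zero_left h'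
  have n : ‖v‖ ≤ 1 / 2 * ‖v‖ := by
    calc ‖v‖ = s * ‖fderiv ℝ V q v‖ := by
          conv_lhs => rw [e]
          rw [norm_neg, norm_smul, Real.norm_of_nonneg h0]
      _ ≤ 1 * ‖fderiv ℝ V q v‖ := by gcongr
      _ ≤ _ := by
          rw [one_mul]
          exact ((fderiv ℝ V q).le_opNorm v).trans (by gcongr; exact hb q)
  have : ‖v‖ = 0 := by linarith [norm_nonneg v]
  exact norm_eq_zero.1 this

open Classical in
/-- The isotopy attached to a small compactly supported displacement field. -/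
lemma ofField [T2Space S] {ι : Q → S} (hι : Chart J 0 ι) {V : Q → Q} (hV : ContDiff ℝ ∞ V)
    (hc : HasCompactSupport V) (hb : ∀ q, ‖fderiv ℝ V q‖ ≤ 1 / 2) :
    ∃ φ : SIso J S, (∀ q, φ.φ 1 (ι q) = ι (q + V q)) ∧ ∀ x, x ∉ range ι → φ.φ 1 x = x := by
  set σ : S → Q := Function.invFun ι with hσ
  have hl : ∀ q, σ (ι q) = q := Function.leftInverse_invFun (inj hι)
  set f : ℝ → S → S := fun t x =>
    if x ∈ range ι then ι (σ x + Real.smoothTransition t • V (σ x)) else x with hf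
  have fin : ∀ t q, f t (ι q) = ι (q + Real.smoothTransition t • V q) := fun t q => by
    simp only [hf, mem_range_self, if_true, hl]
  have fout : ∀ t x, x ∉ range ι → f t x = x := fun t x hx => by simp only [hf, hx, if_false]
  have hcl : IsClosed (ι '' tsupport V) := (hc.isCompact.image hι.loc.contMDiff.continuous).isClosed
  have fid : ∀ t x, x ∉ ι '' tsupport V → f t x = x := fun t x hx => by
    by_cases h : x ∈ range ι
    · obtain ⟨q, rfl⟩ := h
      have : V q = 0 := image_eq_zero_of_notMem_tsupport fun h' => hx (mem_image_of_mem _ h')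
      rw [fin, this, smul_zero, add_zero]
    · exact fout t x h
  have hnb : ∀ x, x ∉ range ι → ∀ᶠ y in 𝓝 x, y ∉ ι '' tsupport V := fun x hx =>
    hcl.isOpen_compl.mem_nhds fun h => hx (image_subset_range _ _ h)
  have hro : ∀ q, ∀ᶠ y in 𝓝 (ι q), y ∈ range ι := fun q =>
    hι.loc.isOpen_range.mem_nhds (mem_range_self q)
  have s0 := Real.smoothTransition.nonneg
  have s1 := Real.smoothTransition.le_one
  refine ⟨⟨f, fun z => ?_, fun x => ?_, fun t x y h => ?_, fun t x => ?_⟩, fun q => ?_, fout 1⟩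
  · obtain ⟨t, x⟩ := z
    by_cases h : x ∈ range ι
    · obtain ⟨q, rfl⟩ := h
      have a1 : ContMDiffAt (𝓘(ℝ, ℝ).prod J) 𝓘(ℝ, Q) ∞ (fun z : ℝ × S => σ z.2) (t, ι q) :=
        (inv_smooth hι q).comp (t, ι q) contMDiffAt_snd
      have a2 : ContMDiffAt (𝓘(ℝ, ℝ).prod J) 𝓘(ℝ, ℝ) ∞
          (fun z : ℝ × S => Real.smoothTransition z.1) (t, ι q) :=
        (Real.smoothTransition.contDiff.contMDiff.contMDiffAt).comp (t, ι q) contMDiffAt_fst
      have a3 : ContMDiffAt (𝓘(ℝ, ℝ).prod J) 𝓘(ℝ, Q) ∞ (fun z : ℝ × S => V (σ z.2)) (t, ι q) :=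
        (hV.contMDiff.contMDiffAt).comp (t, ι q) a1
      have a4 := (hι.loc.contMDiff.contMDiffAt).comp (t, ι q) (a1.add (a2.smul a3))
      refine a4.congr_of_eventuallyEq ?_
      filter_upwards [continuous_snd.continuousAt.eventually (hro q)] with y hy
      simp only [hf, hy, if_true]
      rfl
    · refine contMDiffAt_snd.congr_of_eventuallyEq ?_
      filter_upwards [continuous_snd.continuousAt.eventually (hnb x h)] with y hy
      exact fid _ _ hy
  · by_cases h : x ∈ range ι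
    · obtain ⟨q, rfl⟩ := h
      rw [fin, Real.smoothTransition.zero, zero_smul, add_zero]
    · exact fout 0 x h
  · by_cases hx : x ∈ range ι
    · obtain ⟨q, rfl⟩ := hx
      by_cases hy : y ∈ range ι
      · obtain ⟨q', rfl⟩ := hy
        rw [fin, fin] at h
        rw [step_inj hV hb (s0 t) (s1 t) (inj hι h)]
      · rw [fin, fout t y hy] at h
        exact absurd (h ▸ mem_range_self _) hy
    · by_cases hy : y ∈ range ι
      · obtain ⟨q', rfl⟩ := hy
        rw [fin, fout t x hx] at h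
        exact absurd (h ▸ mem_range_self _) hx
      · rwa [fout t x hx, fout t y hy] at h
  · by_cases h : x ∈ range ι
    · obtain ⟨q, rfl⟩ := h
      set g : Q → Q := fun q => q + Real.smoothTransition t • V q with hg
      have gs : ContDiff ℝ ∞ g := contDiff_id.add (hV.const_smul _)
      have e : f t =ᶠ[𝓝 (ι q)] (ι ∘ g) ∘ σ := by
        filter_upwards [hro q] with y hy
        simp only [hf, hy, if_true]
        rfl
      have dσ : MDifferentiableAt J 𝓘(ℝ, Q) σ (ι q) :=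
        (inv_smooth hι q).mdifferentiableAt (by simp)
      have dι : ∀ p, MDifferentiableAt 𝓘(ℝ, Q) J ι p := fun p =>
        (hι.loc p).mdifferentiableAt (by simp)
      have dg : ∀ p, MDifferentiableAt 𝓘(ℝ, Q) 𝓘(ℝ, Q) g p := fun p =>
        gs.contMDiff.contMDiffAt.mdifferentiableAt (by simp)
      have iι : ∀ p, Function.Injective (mfderiv 𝓘(ℝ, Q) J ι p) := fun p =>
        ((hι.loc p).mfderivToContinuousLinearEquiv (by simp)).injective
      have iσ : Function.Injective (mfderiv J 𝓘(ℝ, Q) σ (ι q)) := by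
        have e' : ι ∘ σ =ᶠ[𝓝 (ι q)] id := by
          filter_upwards [hro q] with y hy
          obtain ⟨p, rfl⟩ := hy
          simp only [Function.comp_apply, hl, id]
        have h1 := mfderiv_comp (ι q) (dι _) dσ
        rw [e'.mfderiv_eq, mfderiv_id] at h1
        intro u v huv
        have h2 := congrArg (fun T : E₂ →L[ℝ] E₂ => T u) h1
        have h3 := congrArg (fun T : E₂ →L[ℝ] E₂ => T v) h1
        exact h2.trans ((congrArg (mfderiv 𝓘(ℝ, Q) J ι (σ (ι q))) huv).trans h3.symm)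
      have ig : ∀ p, Function.Injective (mfderiv 𝓘(ℝ, Q) 𝓘(ℝ, Q) g p) := fun p => by
        rw [mfderiv_eq_fderiv]
        exact step_dinj hV hb (s0 t) (s1 t) p
      rw [e.mfderiv_eq, mfderiv_comp (ι q) ((dι _).comp _ (dg _)) dσ, mfderiv_comp _ (dι _) (dg _)]
      exact ((iι _).comp (ig _)).comp iσ
    · have e : f t =ᶠ[𝓝 x] id := by
        filter_upwards [hnb x h] with y hy
        exact fid _ _ hy
      rw [e.mfderiv_eq, mfderiv_id]
      exact fun _ _ h => h
  · show f 1 (ι q) = _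
    rw [fin, Real.smoothTransition.one, one_smul]

lemma exists_bound {F : Type*} [NormedAddCommGroup F] [NormedSpace ℝ F] {V : Q → F}
    (hV : ContDiff ℝ ∞ V) (hc : HasCompactSupport V) : ∃ C, 0 ≤ C ∧ ∀ q, ‖fderiv ℝ V q‖ ≤ C := by
  obtain ⟨C, hC⟩ := (hV.continuous_fderiv (by simp)).bounded_above_of_compact_support (hc.fderiv ℝ)
  exact ⟨C, (norm_nonneg _).trans (hC 0), hC⟩

end PlaneAux

open PlaneAux

theorem SIso.exists_refl : ∃ φ : SIso J S, ∀ t x, φ.φ t x = x :=
  ⟨⟨fun _ x => x, contMDiff_snd, fun _ => rfl, fun _ _ _ h => h, fun _ x => by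
    rw [show (fun x : S => x) = id from rfl, mfderiv_id]
    exact fun _ _ h => h⟩, fun _ _ => rfl⟩

theorem SIso.exists_comp (φ ψ : SIso J S) :
    ∃ χ : SIso J S, ∀ t x, χ.φ t x = φ.φ t (ψ.φ t x) :=
  ⟨⟨fun t x => φ.φ t (ψ.φ t x), φ.smooth.comp (contMDiff_fst.prodMk ψ.smooth),
    fun x => by rw [ψ.zero, φ.zero], fun t => (φ.inj t).comp (ψ.inj t), fun t x => by
    rw [show (fun x => φ.φ t (ψ.φ t x)) = φ.φ t ∘ ψ.φ t from rfl,
      mfderiv_comp x ((slice φ t).mdifferentiableAt (by simp))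
        ((slice ψ t).mdifferentiableAt (by simp))]
    exact (φ.imm t _).comp (ψ.imm t x)⟩, fun _ _ => rfl⟩

theorem Chart.affine {ι : Q → S} (hι : Chart J 0 ι) (e : Q ≃L[ℝ] Q) (b : Q) :
    Chart J 0 fun q => ι (e q + b) := by
  let A : Diffeomorph 𝓘(ℝ, Q) 𝓘(ℝ, Q) Q Q ∞ :=
    { toFun := fun q => e q + b
      invFun := fun q => e.symm (q - b)
      left_inv := fun q => by simp
      right_inv := fun q => by simp
      contMDiff_toFun := (e.contDiff.add contDiff_const).contMDiff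
      contMDiff_invFun := (e.symm.contDiff.comp (contDiff_id.sub contDiff_const)).contMDiff }
  refine ⟨fun q => IsLocalDiffeomorphAt.comp (hf := A.isLocalDiffeomorph q) (hg := hι.loc (A q)), fun q q' => ⟨fun h => ?_, ?_⟩⟩
  · refine ⟨0, ?_⟩
    have := e.injective (add_right_cancel (inj hι h))
    rw [this]; simp
  · rintro ⟨n, rfl⟩
    rw [mul_zero, Prod.mk_zero_zero, add_zero]

theorem expand [T2Space S] {ι : Q → S} (hι : Chart J 0 ι) {O U : Set S} (hO : IsOpen O)
    (hU : IsOpen U) (h₁ : ι '' Metric.sphere 0 1 ⊆ O) (h₀ : ι 0 ∈ U) :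
    ∃ φ : SIso J S, (∀ x ∈ ι '' Metric.closedBall 0 1, x ∉ U → φ.φ 1 x ∈ O) ∧
      ∀ x, x ∉ ι '' Metric.closedBall 0 1 → φ.φ 1 x = x := by
  have cι : Continuous ι := hι.loc.contMDiff.continuous
  obtain ⟨m, m0, m1, hm⟩ : ∃ m : ℝ, 0 < m ∧ m < 1 ∧ ∀ q : Q, ‖q‖ ≤ 1 → m < ‖q‖ → ι q ∈ O := by
    have hK : IsCompact (Metric.closedBall (0 : Q) 1 \ ι ⁻¹' O) :=
      (isCompact_closedBall _ _).diff (hO.preimage cι)
    rcases (Metric.closedBall (0 : Q) 1 \ ι ⁻¹' O).eq_empty_or_nonempty with h | h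
    · refine ⟨1 / 2, by norm_num, by norm_num, fun q hq _ => ?_⟩
      by_contra hn
      have : q ∈ Metric.closedBall (0 : Q) 1 \ ι ⁻¹' O := ⟨mem_closedBall_zero_iff.2 hq, hn⟩
      rw [h] at this
      exact this
    · obtain ⟨p, hp, hmax⟩ := hK.exists_isMaxOn h continuous_norm.continuousOn
      have p1 : ‖p‖ < 1 := lt_of_le_of_ne (mem_closedBall_zero_iff.1 hp.1) fun h' =>
        hp.2 (h₁ (mem_image_of_mem _ (mem_sphere_zero_iff_norm.2 h')))
      refine ⟨max ‖p‖ (1 / 2), lt_max_of_lt_right (by norm_num), max_lt p1 (by norm_num),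
        fun q hq hq' => ?_⟩
      by_contra hn
      have : ‖q‖ ≤ ‖p‖ := hmax (show q ∈ _ from ⟨mem_closedBall_zero_iff.2 hq, hn⟩)
      exact absurd ((le_max_left _ _).trans_lt hq') (not_lt.2 this)
  obtain ⟨ρ, ρ0, hρ⟩ : ∃ ρ : ℝ, 0 < ρ ∧ ∀ q : Q, ‖q‖ < ρ → ι q ∈ U := by
    obtain ⟨ρ, ρ0, h⟩ := Metric.isOpen_iff.1 (hU.preimage cι) 0 h₀
    exact ⟨ρ, ρ0, fun q hq => h (mem_ball_zero_iff.2 hq)⟩
  let χ : ContDiffBump (0 : Q) := ⟨m, (m + 1) / 2, m0, by linarith⟩
  have hV0 : ContDiff ℝ ∞ fun q : Q => χ q • q := χ.contDiff.smul contDiff_id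
  have hc0 : HasCompactSupport fun q : Q => χ q • q := χ.hasCompactSupport.smul_right
  obtain ⟨C, C0, hC⟩ := exists_bound hV0 hc0
  set ε : ℝ := min (1 / (2 * (C + 1))) ((1 - m) / 2) with hε
  have ε0 : 0 < ε := lt_min (by positivity) (by linarith)
  have ε1 : ε * C ≤ 1 / 2 := by
    have : ε ≤ 1 / (2 * (C + 1)) := min_le_left _ _
    rw [le_div_iff₀ (by positivity)] at this
    nlinarith
  have ε2 : ε ≤ (1 - m) / 2 := min_le_right _ _
  obtain ⟨φ, hφ, hφ'⟩ := ofField hι (V := fun q => ε • (χ q • q)) (hV0.const_smul ε)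
    (hc0.smul_left (f := fun _ => ε)) fun q => by
      rw [fderiv_fun_const_smul ((hV0.differentiable (by simp)).differentiableAt), norm_smul,
        Real.norm_of_nonneg ε0.le]
      exact (mul_le_mul_of_nonneg_left (hC q) ε0.le).trans ε1
  set T : Q → Q := fun q => q + ε • (χ q • q) with hT
  have nT : ∀ q, ‖T q‖ = (1 + ε * χ q) * ‖q‖ := fun q => by
    have : T q = (1 + ε * χ q) • q := by rw [add_smul, one_smul, mul_smul]
    rw [this, norm_smul, Real.norm_of_nonneg (by have := χ.nonneg (x := q); positivity)]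
  have Tfix : ∀ q : Q, (m + 1) / 2 ≤ ‖q‖ → T q = q := fun q hq => by
    have : χ q = 0 := χ.zero_of_le_dist (by rwa [dist_zero_right])
    simp only [hT, this, zero_smul, smul_zero, add_zero]
  have it : ∀ n : ℕ, ∃ ψ : SIso J S, (∀ q, ψ.φ 1 (ι q) = ι (T^[n] q)) ∧
      ∀ x, x ∉ range ι → ψ.φ 1 x = x := fun n => by
    induction n with
    | zero =>
      obtain ⟨ψ, h⟩ := SIso.exists_refl (J := J) (S := S)
      exact ⟨ψ, fun q => h _ _, fun x _ => h _ _⟩
    | succ n ih =>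
      obtain ⟨ψ, h, h'⟩ := ih
      obtain ⟨c, hc⟩ := SIso.exists_comp φ ψ
      refine ⟨c, fun q => ?_, fun x hx => ?_⟩
      · rw [hc, h, hφ, Function.iterate_succ_apply']
      · rw [hc, h' x hx, hφ' x hx]
  have grow : ∀ (n : ℕ) (q : Q), ‖q‖ ≤ 1 →
      ‖T^[n] q‖ ≤ 1 ∧ (m < ‖T^[n] q‖ ∨ (1 + ε) ^ n * ‖q‖ ≤ ‖T^[n] q‖) := fun n q hq => by
    induction n with
    | zero => exact ⟨hq, Or.inr (by simp)⟩
    | succ n ih =>
      rw [Function.iterate_succ_apply']
      set p := T^[n] q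
      have c0 := χ.nonneg (x := p)
      have c1 := χ.le_one (x := p)
      have p0 := norm_nonneg p
      constructor
      · rcases le_or_gt ((m + 1) / 2) ‖p‖ with h | h
        · rw [Tfix p h]; exact ih.1
        · rw [nT]
          have : ε * χ p ≤ ε := by nlinarith
          have : ε * χ p * ‖p‖ ≤ ε := by nlinarith [ih.1, mul_nonneg ε0.le c0]
          nlinarith
      · rcases lt_or_ge m ‖p‖ with h | h
        · left
          rw [nT]
          nlinarith [mul_nonneg (mul_nonneg ε0.le c0) p0]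
        · right
          have : χ p = 1 := χ.one_of_mem_closedBall (mem_closedBall_zero_iff.2 h)
          rw [nT, this, mul_one, pow_succ', mul_assoc]
          rcases ih.2 with h' | h'
          · exact absurd h' (not_lt.2 h)
          · gcongr
  obtain ⟨n, hn⟩ := pow_unbounded_of_one_lt (1 / ρ) (show 1 < 1 + ε by linarith)
  obtain ⟨ψ, h, h'⟩ := it n
  refine ⟨ψ, ?_, fun x hx => ?_⟩
  · rintro _ ⟨q, hq, rfl⟩ hqU
    have q1 := mem_closedBall_zero_iff.1 hq
    have q2 : ρ ≤ ‖q‖ := not_lt.1 fun h => hqU (hρ q h)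
    obtain ⟨g1, g2⟩ := grow n q q1
    rw [h]
    refine hm _ g1 (g2.resolve_right fun g => ?_)
    rw [div_lt_iff₀ ρ0] at hn
    have : (1 + ε) ^ n * ρ ≤ (1 + ε) ^ n * ‖q‖ := by gcongr
    linarith
  · by_cases hr : x ∈ range ι
    · obtain ⟨q, rfl⟩ := hr
      have : 1 < ‖q‖ := not_le.1 fun h => hx (mem_image_of_mem _ (mem_closedBall_zero_iff.2 h))
      rw [h, Function.iterate_fixed (Tfix q (by linarith))]
    · exact h' x hr

theorem move [T2Space S] {ι : Q → S} (hι : Chart J 0 ι) :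
    ∃ r : ℝ, 0 < r ∧ ∀ q q' : Q, ‖q‖ < r → ‖q'‖ < r → ∃ φ : SIso J S,
      φ.φ 1 (ι q) = ι q' ∧ ∀ x, x ∉ range ι → φ.φ 1 x = x := by
  let χ : ContDiffBump (0 : Q) := ⟨1, 2, one_pos, one_lt_two⟩
  have hχ : ContDiff ℝ ∞ χ := χ.contDiff
  obtain ⟨C, C0, hC⟩ := exists_bound hχ χ.hasCompactSupport
  refine ⟨min 1 (1 / (4 * (C + 1))), lt_min one_pos (by positivity), fun q q' hq hq' => ?_⟩
  have hd : ‖q' - q‖ * C ≤ 1 / 2 := by
    have a := (hq.trans_le (min_le_right _ _)).le
    have b := (hq'.trans_le (min_le_right _ _)).le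
    rw [le_div_iff₀ (by positivity)] at a b
    have := norm_sub_le q' q
    nlinarith [norm_nonneg q, norm_nonneg q']
  obtain ⟨φ, h, h'⟩ := ofField hι (V := fun p => χ p • (q' - q)) (hχ.smul contDiff_const)
    χ.hasCompactSupport.smul_right fun p => by
      rw [fderiv_smul_const ((hχ.differentiable (by simp)).differentiableAt),
        ContinuousLinearMap.norm_smulRight_apply]
      refine le_trans ?_ hd
      rw [mul_comm]
      gcongr
      exact hC p
  refine ⟨φ, ?_, h'⟩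
  have : χ q = 1 :=
    χ.one_of_mem_closedBall (mem_closedBall_zero_iff.2 (hq.trans_le (min_le_left _ _)).le)
  rw [h, this, one_smul, add_sub_cancel]

end Surface

end Pool.Agent.Lib.MP_72f1d0_gt.V3
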