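import Mathlib
import Pool.Agent.Lib.MP_72f1d0_gt.V3.Defs

/-! Pushing a neighbourhood of a point of a surface into the interior. -/

open scoped ContDiff Manifold Topology
open Set

namespace Pool.Agent.Lib.MP_72f1d0_gt.V3

namespace PushAux

variable {E₂ : Type*} [NormedAddCommGroup E₂] [NormedSpace ℝ E₂] [FiniteDimensional ℝ E₂]

/-- The model isotopy. -/
theorem model {R : Set E₂} (hR : Convex ℝ R) {p : E₂} (hp : p ∈ closure (interior R)) {r : ℝ}
    (hr : 0 < r) : ∃ g : ℝ → E₂ → E₂, ContDiff ℝ ∞ (fun x : ℝ × E₂ => g x.1 x.2) ∧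
      (∀ y, g 0 y = y) ∧ (∀ t, Function.Injective (g t)) ∧
      (∀ t y, Function.Injective (fderiv ℝ (g t) y)) ∧
      (∀ t y, y ∈ R → g t y ∈ R) ∧ (∀ t y, y ∈ Metric.ball p r → g t y ∈ Metric.ball p r) ∧
      (∀ t y, y ∉ Metric.closedBall p (r / 2) → g t y = y) ∧
      (∀ y, y ∈ R → g 1 y ∈ interior R ∨ g 1 y = y) ∧
      ∀ y ∈ Metric.ball p (r / 4), y ∈ R → g 1 y ∈ interior R := by
  obtain ⟨c, hc, hcp⟩ := Metric.mem_closure_iff.1 hp r hr
  have hcb : c ∈ Metric.ball p r := by rwa [Metric.mem_ball, dist_comm]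
  let χ : ContDiffBump p := ⟨r / 4, r / 2, by positivity, by linarith⟩
  let V : E₂ → E₂ := fun y => χ y • (c - y)
  have hV : ContDiff ℝ ∞ V := χ.contDiff.smul (contDiff_const.sub contDiff_id)
  have hVc : HasCompactSupport V := χ.hasCompactSupport.smul_right
  obtain ⟨K, hK⟩ := hV.lipschitzWith_of_hasCompactSupport hVc (by simp)
  set ε : ℝ := 1 / (K + 1) with hε
  have hK0 : (0 : ℝ) ≤ K := K.2
  have hε0 : 0 < ε := by positivity
  have hε1 : ε ≤ 1 := by rw [hε, div_le_one (by positivity)]; linarith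
  have hεK : ε * K < 1 := by rw [hε, div_mul_eq_mul_div, div_lt_one (by positivity)]; linarith
  let s : ℝ → ℝ := fun t => Real.smoothTransition t * ε
  have hs0 : ∀ t, 0 ≤ s t := fun t => mul_nonneg (Real.smoothTransition.nonneg t) hε0.le
  have hsε : ∀ t, s t ≤ ε := fun t =>
    mul_le_of_le_one_left hε0.le (Real.smoothTransition.le_one t)
  have hsK : ∀ t, s t * K < 1 := fun t => (mul_le_mul_of_nonneg_right (hsε t) hK0).trans_lt hεK
  have hs : ContDiff ℝ ∞ s := Real.smoothTransition.contDiff.mul contDiff_const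
  have ha : ∀ t y, s t * χ y ∈ Icc (0 : ℝ) 1 := fun t y =>
    ⟨mul_nonneg (hs0 t) χ.nonneg, mul_le_one₀ ((hsε t).trans hε1) χ.nonneg χ.le_one⟩
  have hg : ∀ t y, y + s t • V y = y + (s t * χ y) • (c - y) := fun t y => by
    simp only [V, smul_smul]
  have key : ∀ t (v w : E₂), ‖w‖ ≤ K * ‖v‖ → v + s t • w = 0 → v = 0 := fun t v w hw h => by
    by_contra hv
    have h1 : ‖v‖ = s t * ‖w‖ := by
      rw [eq_neg_of_add_eq_zero_left h, norm_neg, norm_smul, Real.norm_of_nonneg (hs0 t)]
    have h2 := norm_pos_iff.2 hv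
    have h3 := mul_le_mul_of_nonneg_left hw (hs0 t)
    nlinarith [hsK t]
  have hint : ∀ y ∈ R, 0 < χ y → y + s 1 • V y ∈ interior R := fun y hy h => by
    rw [hg]
    refine hR.add_smul_sub_mem_interior hy hc ⟨mul_pos ?_ h, (ha 1 y).2⟩
    simpa [s, Real.smoothTransition.one] using hε0
  refine ⟨fun t y => y + s t • V y, ?_, fun y => ?_, fun t y z h => ?_, fun t y => ?_,
    fun t y hy => ?_, fun t y hy => ?_, fun t y hy => ?_, fun y hy => ?_, fun y hy hyR => ?_⟩
  · exact contDiff_snd.add ((hs.comp contDiff_fst).smul (hV.comp contDiff_snd))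
  · simp [s, Real.smoothTransition.zero]
  · refine sub_eq_zero.1 (key t (y - z) (V y - V z) ?_ ?_)
    · simpa [dist_eq_norm] using hK.dist_le_mul y z
    · have h' : y + s t • V y = z + s t • V z := h
      rw [smul_sub, sub_add_sub_comm, h', sub_self]
  · have hd : HasFDerivAt (fun y => y + s t • V y)
        (ContinuousLinearMap.id ℝ E₂ + s t • fderiv ℝ V y) y :=
      (hasFDerivAt_id y).add ((hV.differentiable (by simp) y).hasFDerivAt.const_smul (s t))
    rw [hd.fderiv, injective_iff_map_eq_zero]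
    intro v hv
    exact key t v (fderiv ℝ V y v)
      ((ContinuousLinearMap.le_opNorm _ _).trans
        (mul_le_mul_of_nonneg_right (norm_fderiv_le_of_lipschitz ℝ hK) (norm_nonneg _))) hv
  · beta_reduce
    rw [hg]; exact hR.add_smul_sub_mem hy (interior_subset hc) (ha t y)
  · beta_reduce
    rw [hg]; exact (convex_ball p r).add_smul_sub_mem hy hcb (ha t y)
  · have : χ y = 0 := χ.zero_of_le_dist (le_of_lt (by simpa using hy))
    simp [V, this]
  · rcases (χ.nonneg (x := y)).eq_or_lt with h | h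
    · right; simp [V, ← h]
    · exact Or.inl (hint y hy h)
  · refine hint y hyR ?_
    rw [χ.one_of_mem_closedBall (Metric.ball_subset_closedBall hy)]; exact one_pos

end PushAux

variable {E₂ H₂ : Type*} [NormedAddCommGroup E₂] [NormedSpace ℝ E₂] [FiniteDimensional ℝ E₂]
  [TopologicalSpace H₂] {J : ModelWithCorners ℝ E₂ H₂} {S : Type*} [TopologicalSpace S]
  [ChartedSpace H₂ S] [IsManifold J ∞ S]

theorem lpush [T2Space S] (x₀ : S) {W : Set S} (hW : IsOpen W) (hx : x₀ ∈ W) :
    ∃ φ : SIso J S, (∀ y, y ∉ W → φ.φ 1 y = y) ∧ (∀ y, φ.φ 1 y ∈ J.interior S ∨ φ.φ 1 y = y) ∧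
      ∀ᶠ y in 𝓝 x₀, φ.φ 1 y ∈ J.interior S := by
  classical
  set e := extChartAt J x₀ with he
  have hso : IsOpen e.source := isOpen_extChartAt_source x₀
  have hsrc : e.source = (chartAt H₂ x₀).source := extChartAt_source J x₀
  have hT : e.target ∩ e.symm ⁻¹' W ∈ 𝓝[range J] (e x₀) :=
    Filter.inter_mem (extChartAt_target_mem_nhdsWithin x₀)
      (mem_nhdsWithin_of_mem_nhds (extChartAt_preimage_mem_nhds (hW.mem_nhds hx)))
  obtain ⟨r, hr, hrT⟩ := Metric.mem_nhdsWithin_iff.1 hT
  have hR : ∀ y, e y ∈ range J := fun y => by simp [he]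
  obtain ⟨g, gs, g0, gi, gd, gR, gb, go, g1, g2⟩ :=
    PushAux.model J.convex_range (J.range_subset_closure_interior (hR x₀)) hr
  have hKT : Metric.closedBall (e x₀) (r / 2) ∩ range J ⊆ e.target ∩ e.symm ⁻¹' W := fun z hz =>
    hrT ⟨Metric.closedBall_subset_ball (by linarith) hz.1, hz.2⟩
  set K := e.symm '' (Metric.closedBall (e x₀) (r / 2) ∩ range J) with hK
  have hKc : IsClosed K :=
    (((isCompact_closedBall _ _).inter_right J.isClosed_range).image_of_continuousOn
      ((continuousOn_extChartAt_symm x₀).mono fun z hz => (hKT hz).1)).isClosed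
  have hKs : K ⊆ e.source := by rintro _ ⟨z, hz, rfl⟩; exact e.map_target (hKT hz).1
  have hKW : K ⊆ W := by rintro _ ⟨z, hz, rfl⟩; exact (hKT hz).2
  have hgt : ∀ t y, y ∈ e.source → g t (e y) ∈ e.target := fun t y hy => by
    by_cases h : e y ∈ Metric.ball (e x₀) r
    · exact (hrT ⟨gb t _ h, gR t _ (hR y)⟩).1
    · rw [go t _ fun h' => h (Metric.closedBall_subset_ball (by linarith) h')]
      exact e.map_source hy
  let φ : ℝ → S → S := fun t y => if y ∈ e.source then e.symm (g t (e y)) else y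
  have φin : ∀ t y, y ∈ e.source → φ t y = e.symm (g t (e y)) := fun t y hy => if_pos hy
  have φout : ∀ t y, y ∉ K → φ t y = y := fun t y hy => by
    by_cases h : y ∈ e.source
    · rw [φin t y h, go t _ fun h' => hy ⟨e y, ⟨h', hR y⟩, e.left_inv h⟩, e.left_inv h]
    · exact if_neg h
  have φs : ∀ t y, y ∈ e.source → φ t y ∈ e.source := fun t y hy => by
    rw [φin t y hy]; exact e.map_target (hgt t y hy)
  have φe : ∀ t y, y ∈ e.source → e (φ t y) = g t (e y) := fun t y hy => by
    rw [φin t y hy, e.right_inv (hgt t y hy)]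
  have hes : ContMDiffOn J 𝓘(ℝ, E₂) ∞ e e.source := by
    rw [hsrc]; exact contMDiffOn_extChartAt
  have hsm : ContMDiff (𝓘(ℝ, ℝ).prod J) J ∞ fun x : ℝ × S => φ x.1 x.2 := fun x => by
    by_cases h : x.2 ∈ e.source
    · have hG : ContMDiffOn (𝓘(ℝ, ℝ).prod J) 𝓘(ℝ, E₂) ∞ (fun x : ℝ × S => g x.1 (e x.2))
          (Prod.snd ⁻¹' e.source) :=
        gs.contMDiff.comp_contMDiffOn
          (contMDiffOn_fst.prodMk_space (hes.comp contMDiffOn_snd fun _ h => h))
      have h2 := (contMDiffOn_extChartAt_symm (n := ∞) x₀).comp hG fun x hx => hgt x.1 x.2 hx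
      exact (h2.congr fun x hx => φin x.1 x.2 hx).contMDiffAt
        ((hso.preimage continuous_snd).mem_nhds h)
    · refine contMDiffAt_snd.congr_of_eventuallyEq ?_
      filter_upwards [(hKc.isOpen_compl.preimage continuous_snd).mem_nhds fun h' => h (hKs h')]
        with z hz using φout z.1 z.2 hz
  have hint : ∀ y ∈ e.source, g 1 (e y) ∈ interior (range J) → φ 1 y ∈ J.interior S :=
    fun y hy h => by
      have h1 : φ 1 y ∈ (chartAt H₂ x₀).source := hsrc ▸ φs 1 y hy
      rw [← φe 1 y hy] at h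
      exact (J.isInteriorPoint_iff_of_mem_atlas (n := ∞) (by simp) (chart_mem_atlas H₂ x₀) h1).2
        ((chartAt H₂ x₀).mem_interior_extend_target ((chartAt H₂ x₀).map_source h1) h)
  refine ⟨⟨φ, hsm, fun y => ?_, fun t y z h => ?_, fun t y => ?_⟩,
    fun y hy => φout 1 y fun h => hy (hKW h), fun y => ?_, ?_⟩
  · by_cases h : y ∈ e.source
    · rw [φin 0 y h, g0, e.left_inv h]
    · exact if_neg h
  · by_cases hy : y ∈ e.source <;> by_cases hz : z ∈ e.source
    · exact e.injOn hy hz (gi t (by rw [← φe t y hy, ← φe t z hz, h]))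
    · exact absurd (φs t y hy) (by rw [h, φout t z fun h' => hz (hKs h')]; exact hz)
    · exact absurd (φs t z hz) (by rw [← h, φout t y fun h' => hy (hKs h')]; exact hy)
    · rwa [φout t z fun h' => hz (hKs h'), φout t y fun h' => hy (hKs h')] at h
  · by_cases hy : y ∈ e.source
    · have hφ : MDifferentiableAt J J (φ t) y :=
        ((hsm.comp (contMDiff_const.prodMk contMDiff_id)) y).mdifferentiableAt (by simp)
      have hed : ∀ z ∈ e.source, MDifferentiableAt J 𝓘(ℝ, E₂) e z := fun z hz =>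
        (hes.contMDiffAt (hso.mem_nhds hz)).mdifferentiableAt (by simp)
      have hgd : MDifferentiableAt 𝓘(ℝ, E₂) 𝓘(ℝ, E₂) (g t) (e y) :=
        ((gs.comp (contDiff_const.prodMk contDiff_id)).differentiable (by simp)
          (e y)).mdifferentiableAt
      have h1 : e ∘ φ t =ᶠ[𝓝 y] g t ∘ e := by
        filter_upwards [hso.mem_nhds hy] with z hz using φe t z hz
      have h2 := h1.mfderiv_eq (I := J) (I' := 𝓘(ℝ, E₂))
      rw [mfderiv_comp y (hed _ (φs t y hy)) hφ, mfderiv_comp y hgd (hed y hy),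
        mfderiv_eq_fderiv] at h2
      intro v w hvw
      refine (isInvertible_mfderiv_extChartAt hy).injective (gd t (e y) ?_)
      have h3 := congrArg (fun L => L v) h2
      have h4 := congrArg (fun L => L w) h2
      exact h3.symm.trans ((congrArg (mfderiv J 𝓘(ℝ, E₂) e (φ t y)) hvw).trans h4)
    · have h1 : φ t =ᶠ[𝓝 y] id := by
        filter_upwards [hKc.isOpen_compl.mem_nhds fun h' => hy (hKs h')] with z hz
          using φout t z hz
      rw [h1.mfderiv_eq, mfderiv_id]
      exact fun _ _ h => h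
  · by_cases hy : y ∈ e.source
    · rcases g1 (e y) (hR y) with h | h
      · exact Or.inl (hint y hy h)
      · right
        change φ 1 y = y
        rw [φin 1 y hy, h, e.left_inv hy]
    · exact Or.inr (if_neg hy)
  · filter_upwards [hso.mem_nhds (mem_extChartAt_source x₀),
      (continuousAt_extChartAt (I := J) x₀).preimage_mem_nhds
        (Metric.ball_mem_nhds (e x₀) (show 0 < r / 4 by positivity))] with y hy hb
      using hint y hy (g2 _ hb (hR y))

end Pool.Agent.Lib.MP_72f1d0_gt.V3
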