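import Mathlib
import Pool.Agent.Lib.MP_72f1d0_gt.V3.Defs
import Pool.Agent.Lib.MP_72f1d0_gt.Eq.ManEngel

/-! The line field cut out by the derived distribution on a formally transverse surface. -/

set_option linter.unusedSectionVars false

open scoped ContDiff Manifold Topology
open Set Filter

namespace Pool.Agent.Lib.MP_72f1d0_gt.V3

open Eq.Stmt Eq.Man

namespace ZRAux

section Alpha

variable {E : Type*} [NormedAddCommGroup E] [NormedSpace ℝ E] [FiniteDimensional ℝ E]
  {M : Type*} [TopologicalSpace M] [ChartedSpace E M] [IsManifold 𝓘(ℝ, E) ∞ M]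

lemma cols_inv (hE : Module.finrank ℝ E = 4) {a : Option (Fin 3) → E}
    (ha : LinearIndependent ℝ a) : (cols a).IsInvertible :=
  ⟨(LinearMap.linearEquivOfInjective (cols a).toLinearMap (cols_inj.mpr ha)
    (by simp [hE])).toContinuousLinearEquiv, ContinuousLinearMap.ext fun _ => rfl⟩

lemma coef_none (hE : Module.finrank ℝ E = 4) {a : Option (Fin 3) → E}
    (ha : LinearIndependent ℝ a) (v : E) :
    v ∈ Submodule.span ℝ (range fun i => a (some i)) ↔ (cols a).inverse v none = 0 := by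
  have hi := cols_inv hE ha
  obtain ⟨c, rfl⟩ := hi.surjective v
  rw [hi.inverse_apply_self]
  constructor
  · intro h
    obtain ⟨d, hd⟩ := (Submodule.mem_span_range_iff_exists_fun ℝ).mp h
    have e : cols a (fun o => o.elim 0 d) = cols a c := by
      rw [← hd, cols_apply, Fintype.sum_option]
      simp
    rw [← hi.injective e]
    rfl
  · intro h
    rw [cols_apply, Fintype.sum_option, h, zero_smul, zero_add]
    exact Submodule.sum_mem _ fun i _ => Submodule.smul_mem _ _ (Submodule.subset_span ⟨i, rfl⟩)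

lemma exists_not_mem (hE : Module.finrank ℝ E = 4) {a : Fin 3 → E}
    (ha : LinearIndependent ℝ a) : ∃ w : E, w ∉ Submodule.span ℝ (range a) := by
  by_contra hn
  push Not at hn
  have h2 := finrank_span_eq_card ha
  rw [show Submodule.span ℝ (range a) = ⊤ from eq_top_iff.mpr fun w _ => hn w, finrank_top,
    hE] at h2
  simp at h2

/-- A distribution of hyperplanes is locally the kernel of a continuous one-form. -/
lemma exists_alpha (hE : Module.finrank ℝ E = 4) {Δ : Distr E M} (hΔ : SmoothRank Δ 3) (p : M) :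
    ∃ U : Set M, IsOpen U ∧ p ∈ U ∧ ∃ α : M → (E →L[ℝ] ℝ),
      (∀ z : TangentBundle 𝓘(ℝ, E) M, z.1 ∈ U →
        ContinuousAt (fun z : TangentBundle 𝓘(ℝ, E) M => α z.1 z.2) z) ∧
      ∀ x ∈ U, α x ≠ 0 ∧ ∀ v : E, v ∈ Δ x ↔ α x v = 0 := by
  obtain ⟨U₀, hU₀, hp, V, hV, hs⟩ := hΔ p
  have hpc : p ∈ (chartAt E p).source := mem_chart_source E p
  obtain ⟨w, hw⟩ := exists_not_mem hE (a := fun i => V i p) (hs p hp).1
  let W : VField E M := fun y => trs E p y (tr E p p w)
  let v : Option (Fin 3) → VField E M := fun o => o.elim W V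
  have hv : ∀ o, ∀ x ∈ U₀ ∩ (chartAt E p).source, SmAt (v o) x := fun o x hx => by
    cases o with
    | none => exact trs_smooth hx.2 _
    | some i => exact (smoothOn_iff hU₀).mp (hV i) x hx.1
  have h0 : LinearIndependent ℝ fun o => v o p :=
    linearIndependent_option.mpr ⟨(hs p hp).1, by
      change trs E p p (tr E p p w) ∉ _
      rw [trs_tr hpc]
      exact hw⟩
  have hO : IsOpen (U₀ ∩ (chartAt E p).source) := hU₀.inter (chartAt E p).open_source
  obtain ⟨U, hUs, hU, hpU⟩ := mem_nhds_iff.mp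
    ((ind_eventually (fun o => hv o p ⟨hp, hpc⟩) h0).and (hO.mem_nhds ⟨hp, hpc⟩))
  let c : TangentBundle 𝓘(ℝ, E) M → (Option (Fin 3) → ℝ) := fun z =>
    (cols (F := E) fun o => v o z.1).inverse z.2
  refine ⟨U, hU, hpU, fun x => (ContinuousLinearMap.proj none).comp
    (cols (F := E) fun o => v o x).inverse, fun z hz => ?_, fun x hx => ⟨fun h => ?_, fun u => ?_⟩⟩
  · have hπ : Continuous fun z : TangentBundle 𝓘(ℝ, E) M => z.1 := FiberBundle.continuous_proj _ _
    have hA : ContinuousAt (fun z : TangentBundle 𝓘(ℝ, E) M =>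
        cols (F := E) fun o => tr E p z.1 (v o z.1)) z :=
      (cols_smooth (ι := Option (Fin 3)) (F := E)).continuous.continuousAt.comp
        (continuousAt_pi.mpr fun o =>
          ContinuousAt.comp (f := fun z : TangentBundle 𝓘(ℝ, E) M => z.1)
            (g := fun x : M => tr E p x (v o x))
            (ContinuousAt.comp (f := fun x : M => (⟨x, v o x⟩ : TangentBundle 𝓘(ℝ, E) M))
              (tr_smooth (p := p) (z := ⟨z.1, v o z.1⟩) (hUs hz).2.2).continuousAt
              (hv o z.1 (hUs hz).2).continuousAt) hπ.continuousAt)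
    have hi : Function.Injective (cols (F := E) fun o => tr E p z.1 (v o z.1)) :=
      cols_inj.mpr ((hUs hz).1.map' (tr E p z.1).toLinearMap (LinearMap.ker_eq_bot.mpr
        fun a b e => by
          rw [← trs_tr (hUs hz).2.2 a, ← trs_tr (hUs hz).2.2 b]
          exact congrArg _ e))
    have hc : ContinuousAt c z := solve_cont hA hi (tr_smooth (p := p) (hUs hz).2.2).continuousAt (by
      filter_upwards [hπ.continuousAt.preimage_mem_nhds (hU.mem_nhds hz)] with y hy
      have := (cols_inv hE (hUs hy).1).self_apply_inverse y.2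
      conv_rhs => rw [← this]
      simp only [cols_apply, map_sum, map_smul]
      rfl)
    exact (continuous_apply none).continuousAt.comp hc
  · have h1 := (coef_none hE (hUs hx).1 (W x)).mpr (congrArg (fun T : E →L[ℝ] ℝ => T (W x)) h)
    exact (linearIndependent_option.mp (hUs hx).1).2 h1
  · rw [← (hs x (hUs hx).2.1).2]
    exact coef_none hE (hUs hx).1 u

end Alpha

section Plane

variable {Y : Type*} [TopologicalSpace Y]

/-- A continuous family of lines in the plane. -/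
def LF (L : Y → Q → Prop) : Prop :=
  ∀ y₀, ∃ U : Set Y, U ∈ 𝓝 y₀ ∧ ∃ a b : Y → ℝ, ContinuousAt a y₀ ∧ ContinuousAt b y₀ ∧
    ∀ y ∈ U, (a y ≠ 0 ∨ b y ≠ 0) ∧ ∀ v : Q, L y v ↔ a y * v.1 + b y * v.2 = 0

lemma LF.slope {L : Y → Q → Prop} (hL : LF L) (h : ∀ y, ¬ L y (0, 1)) :
    ∃ θ : Y → ℝ, Continuous θ ∧ (∀ y y', L y = L y' → θ y = θ y') ∧
      ∀ y, L y (Real.cos (θ y), Real.sin (θ y)) := by
  have key : ∀ {y : Y} {a b : ℝ}, (∀ v : Q, L y v ↔ a * v.1 + b * v.2 = 0) →
      b ≠ 0 ∧ ∀ s : ℝ, L y (1, s) ↔ s = -a / b := fun {y a b} hab => by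
    have hb : b ≠ 0 := fun hb => h y ((hab _).mpr (by simp [hb]))
    refine ⟨hb, fun s => ?_⟩
    rw [hab, eq_div_iff hb]
    constructor <;> intro e <;> simp only at e ⊢ <;> linarith
  have ex : ∀ y, ∃ t : ℝ, ∀ s : ℝ, L y (1, s) ↔ s = t := fun y => by
    obtain ⟨U, hU, a, b, -, -, hab⟩ := hL y
    exact ⟨_, (key (hab y (mem_of_mem_nhds hU)).2).2⟩
  choose t ht using ex
  have hc : Continuous t := continuous_iff_continuousAt.mpr fun y => by
    obtain ⟨U, hU, a, b, ha, hb, hab⟩ := hL y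
    refine (ha.neg.div hb (key (hab y (mem_of_mem_nhds hU)).2).1).congr ?_
    filter_upwards [hU] with x hx
    exact (ht x _).mp (((key (hab x hx).2).2 _).mpr rfl)
  refine ⟨fun y => Real.arctan (t y), Real.continuous_arctan.comp hc, fun y y' e => ?_,
    fun y => ?_⟩
  · have : t y = t y' := (ht y' _).mp (e ▸ (ht y _).mpr rfl)
    simp only [this]
  · obtain ⟨U, hU, a, b, -, -, hab⟩ := hL y
    have h1 := (hab y (mem_of_mem_nhds hU)).2
    have h2 := (h1 _).mp ((ht y _).mpr rfl)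
    rw [h1]
    simp only [Real.sin_arctan, Real.cos_arctan] at h2 ⊢
    have : a y * (1 / √(1 + t y ^ 2)) + b y * (t y / √(1 + t y ^ 2)) =
        (a y * 1 + b y * t y) / √(1 + t y ^ 2) := by ring
    rw [this, h2, zero_div]

lemma ang_iff {a b : ℝ} (h : a ≠ 0 ∨ b ≠ 0) (θ : ℝ) :
    a * Real.cos θ + b * Real.sin θ = 0 ↔
      (Circle.exp (2 * θ) : ℂ) = -(a + b * Complex.I) / (a - b * Complex.I) := by
  have hz : (a : ℂ) - b * Complex.I ≠ 0 := fun e => by
    have h1 := congrArg Complex.re e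
    have h2 := congrArg Complex.im e
    simp at h1 h2
    tauto
  have hs := Real.sin_sq_add_cos_sq θ
  rw [eq_div_iff hz, Circle.coe_exp, Complex.ext_iff]
  simp only [Complex.mul_re, Complex.mul_im, Complex.exp_ofReal_mul_I_re,
    Complex.exp_ofReal_mul_I_im, Complex.sub_re, Complex.sub_im, Complex.ofReal_re,
    Complex.ofReal_im, Complex.I_re, Complex.I_im, Complex.neg_re, Complex.neg_im, Complex.add_re,
    Complex.add_im, Real.cos_two_mul, Real.sin_two_mul]
  constructor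
  · intro e
    constructor
    · linear_combination (2 * Real.cos θ) * e
    · linear_combination (2 * Real.sin θ) * e - 2 * b * hs
  · rintro ⟨e1, e2⟩
    linear_combination (Real.cos θ / 2) * e1 + (Real.sin θ / 2) * e2 -
      (a * Real.cos θ) * hs

lemma LF.double {L : Y → Q → Prop} (hL : LF L) : ∃ w : Y → Circle, Continuous w ∧
    ∀ y θ, L y (Real.cos θ, Real.sin θ) ↔ Circle.exp (2 * θ) = w y := by
  have ex : ∀ y, ∃ θ : ℝ, L y (Real.cos θ, Real.sin θ) := fun y => by
    obtain ⟨U, hU, a, b, -, -, hab⟩ := hL y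
    obtain ⟨-, h1⟩ := hab y (mem_of_mem_nhds hU)
    by_cases hb : b y = 0
    · exact ⟨Real.pi / 2, (h1 _).mpr (by simp [hb])⟩
    · refine ⟨Real.arctan (-a y / b y), (h1 _).mpr ?_⟩
      simp only [Real.sin_arctan, Real.cos_arctan]
      field_simp
      ring
  choose t ht using ex
  refine ⟨fun y => Circle.exp (2 * t y), ?_, fun y θ => ?_⟩
  · refine continuous_induced_rng.mpr (continuous_iff_continuousAt.mpr fun y => ?_)
    obtain ⟨U, hU, a, b, ha, hb, hab⟩ := hL y
    have ha' : ContinuousAt (fun x => (a x : ℂ)) y := Complex.continuous_ofReal.continuousAt.comp ha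
    have hb' : ContinuousAt (fun x => (b x : ℂ)) y := Complex.continuous_ofReal.continuousAt.comp hb
    have hz : (a y : ℂ) - b y * Complex.I ≠ 0 := fun e => by
      have h1 := congrArg Complex.re e
      have h2 := congrArg Complex.im e
      have h3 := (hab y (mem_of_mem_nhds hU)).1
      simp at h1 h2
      tauto
    have hb'' : ContinuousAt (fun x => (b x : ℂ) * Complex.I) y := hb'.mul continuousAt_const
    refine ((ha'.add hb'').neg.div (ha'.sub hb'') hz).congr ?_
    filter_upwards [hU] with x hx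
    exact ((ang_iff (hab x hx).1 _).mp (((hab x hx).2 _).mp (ht x))).symm
  · obtain ⟨U, hU, a, b, -, -, hab⟩ := hL y
    obtain ⟨h0, h1⟩ := hab y (mem_of_mem_nhds hU)
    have h2 := (ang_iff h0 _).mp ((h1 _).mp (ht y))
    rw [h1, ang_iff h0, ← h2]
    exact Circle.coe_injective.eq_iff

/-- Angle functions invariant under a symmetry persist along a homotopy. -/
lemma LF.homotopy [PreconnectedSpace Y] [Nonempty Y] {L : UI × Y → Q → Prop} (hL : LF L)
    {T : Y → Y} (hT : Continuous T) (hLT : ∀ l y, L (l, T y) = L (l, y)) {θ : Y → ℝ}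
    (hθ : Continuous θ) (hp : ∀ y, θ (T y) = θ y)
    (h0 : ∀ y, L (0, y) (Real.cos (θ y), Real.sin (θ y))) :
    ∃ θ' : Y → ℝ, Continuous θ' ∧ (∀ y, θ' (T y) = θ' y) ∧
      ∀ y, L (1, y) (Real.cos (θ' y), Real.sin (θ' y)) := by
  obtain ⟨w, hw, hwL⟩ := hL.double
  have wT : ∀ l y, w (l, T y) = w (l, y) := fun l y => by
    obtain ⟨s, hs⟩ := Circle.exp_surjective (w (l, y))
    have e : Circle.exp (2 * (s / 2)) = w (l, y) := by rw [← hs]; congr 1; ring
    rw [← e]
    exact ((hwL _ _).mp (by rw [hLT]; exact (hwL _ _).mpr e)).symm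
  let H : C(UI × Y, Circle) := ⟨w, hw⟩
  let f : C(Y, ℝ) := ⟨fun y => 2 * θ y, continuous_const.mul hθ⟩
  have H0 : ∀ y, H (0, y) = Circle.exp (f y) := fun y => ((hwL _ _).mp (h0 y)).symm
  let φ := Circle.isCoveringMap_exp.liftHomotopy H f H0
  have φl : ∀ z, Circle.exp (φ z) = w z := fun z =>
    congrFun (Circle.isCoveringMap_exp.liftHomotopy_lifts H f H0) z
  have φ0 : ∀ y, φ (0, y) = 2 * θ y := Circle.isCoveringMap_exp.liftHomotopy_zero H f H0
  obtain ⟨y₀⟩ : Nonempty Y := inferInstance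
  have φT : (fun z : UI × Y => φ (z.1, T z.2)) = φ :=
    Circle.isCoveringMap_exp.eq_of_comp_eq
      (φ.continuous.comp (continuous_fst.prodMk (hT.comp continuous_snd))) φ.continuous
      (funext fun z => by simp only [Function.comp_apply, φl, wT]) (0, y₀)
      (by simp only [φ0, hp])
  refine ⟨fun y => φ (1, y) / 2,
    (φ.continuous.comp (continuous_const.prodMk continuous_id)).div_const 2,
    fun y => congrArg (· / 2) (congrFun φT (1, y)), fun y => (hwL _ _).mpr ?_⟩
  rw [← φl]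
  congr 1
  ring

end Plane

section Surface

variable {E₂ H₂ : Type*} [NormedAddCommGroup E₂] [NormedSpace ℝ E₂]
  [TopologicalSpace H₂] {J : ModelWithCorners ℝ E₂ H₂} {S : Type*} [TopologicalSpace S]
  [ChartedSpace H₂ S] [IsManifold J ∞ S]
  {E : Type*} [NormedAddCommGroup E] [NormedSpace ℝ E] [FiniteDimensional ℝ E]
  {M : Type*} [TopologicalSpace M] [ChartedSpace E M] [IsManifold 𝓘(ℝ, E) ∞ M] {D : Distr E M}

lemma lf_of (hE : Module.finrank ℝ E = 4) {Δ : Distr E M} (hΔ : SmoothRank Δ 3) {Y : Type*}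
    [TopologicalSpace Y] {g : Y → M} {Φ : Y → (Q →L[ℝ] E)}
    (hc : ∀ v, Continuous fun y => (⟨g y, Φ y v⟩ : TangentBundle 𝓘(ℝ, E) M))
    (ht : ∀ y, ∃ v, Φ y v ∉ Δ (g y)) : LF fun y v => Φ y v ∈ Δ (g y) := fun y₀ => by
  obtain ⟨U, hU, hp, α, hα, hk⟩ := exists_alpha hE hΔ (g y₀)
  have hg : Continuous g := (FiberBundle.continuous_proj _ _).comp (hc 0)
  have e : ∀ y (v : Q), α (g y) (Φ y v) =
      α (g y) (Φ y (1, 0)) * v.1 + α (g y) (Φ y (0, 1)) * v.2 := fun y v => by
    have : v = v.1 • ((1, 0) : Q) + v.2 • ((0, 1) : Q) := by simp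
    conv_lhs => rw [this]
    simp only [map_add, map_smul, smul_eq_mul]
    ring
  refine ⟨g ⁻¹' U, hg.continuousAt.preimage_mem_nhds (hU.mem_nhds hp),
    fun y => α (g y) (Φ y (1, 0)), fun y => α (g y) (Φ y (0, 1)),
    ContinuousAt.comp (f := fun y => (⟨g y, Φ y (1, 0)⟩ : TangentBundle 𝓘(ℝ, E) M))
      (hα ⟨g y₀, Φ y₀ (1, 0)⟩ hp) (hc _).continuousAt,
    ContinuousAt.comp (f := fun y => (⟨g y, Φ y (0, 1)⟩ : TangentBundle 𝓘(ℝ, E) M))
      (hα ⟨g y₀, Φ y₀ (0, 1)⟩ hp) (hc _).continuousAt, fun y hy => ⟨?_, fun v => ?_⟩⟩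
  · by_contra hn
    push Not at hn
    obtain ⟨v, hv⟩ := ht y
    exact hv (((hk _ hy).2 _).mpr (by rw [e, hn.1, hn.2]; simp))
  · rw [← e]
    exact (hk _ hy).2 _

lemma exists_tr (hE : Module.finrank ℝ E = 4) (hD : Engel D) {A : Data J E S M}
    (hA : A.Formal D) (x : S) {B : Q →L[ℝ] E₂} (hB : Function.Surjective B) :
    ∃ v, A.F 1 x (B v) ∉ derived D (A.f x) := by
  by_contra hn
  push Not at hn
  obtain ⟨U, -, hp, α, -, hk⟩ := exists_alpha hE hD.2.1 (A.f x)
  refine (hk _ hp).1 (ContinuousLinearMap.ext fun u => ((hk _ hp).2 u).mp ?_)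
  have h1 : LinearMap.range (A.F 1 x).toLinearMap ⊔ D (A.f x) ≤ derived D (A.f x) := by
    refine sup_le ?_ le_sup_left
    rintro _ ⟨w, rfl⟩
    obtain ⟨v, rfl⟩ := hB w
    exact hn v
  rw [(hA.2.2.2.2 x).sup_eq_top] at h1
  exact h1 trivial

variable (J) in
/-- The differential of a map from the plane to the surface. -/
noncomputable def dq (π : Q → S) (q : Q) : Q →L[ℝ] E₂ := mfderiv 𝓘(ℝ, Q) J π q

/-- The bundle map at the end of the formal path, with values in the model spaces. -/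
def F1 (A : Data J E S M) (x : S) : E₂ →L[ℝ] E := A.F 1 x

lemma dq_surj {π : Q → S} (hπ : IsLocalDiffeomorph 𝓘(ℝ, Q) J ∞ π) (q : Q) :
    Function.Surjective (dq J π q) :=
  (hπ.mfderivToContinuousLinearEquiv (by simp) q).surjective

lemma chart_per {ι : Q → S} (hι : Chart J 1 ι) (q : Q) : ι (q + (0, 1)) = ι q :=
  ((hι.fib q _).mpr ⟨1, by simp⟩).symm

lemma dq_per {ι : Q → S} (hι : Chart J 1 ι) (q : Q) : dq J ι (q + (0, 1)) = dq J ι q := by
  have hk : HasFDerivAt (fun q : Q => q + (0, 1)) (ContinuousLinearMap.id ℝ Q) q :=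
    (hasFDerivAt_id q).add_const _
  have := (HasMFDerivAt.comp q (hι.loc.contMDiff.mdifferentiableAt (by simp)).hasMFDerivAt
    hk.hasMFDerivAt).mfderiv
  rw [show (ι ∘ fun q : Q => q + (0, 1)) = ι from funext (chart_per hι)] at this
  exact this.symm

lemma tq_cont {π : Q → S} (hπ : IsLocalDiffeomorph 𝓘(ℝ, Q) J ∞ π) (v : Q) :
    Continuous fun q => (⟨π q, dq J π q v⟩ : TangentBundle J S) :=
  (hπ.contMDiff.continuous_tangentMap (by simp)).comp
    ((tangentBundleModelSpaceHomeomorph 𝓘(ℝ, Q)).symm.continuous.comp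
      (continuous_id.prodMk continuous_const))

end Surface

end ZRAux

open ZRAux

section Surface

variable {E₂ H₂ : Type*} [NormedAddCommGroup E₂] [NormedSpace ℝ E₂] [FiniteDimensional ℝ E₂]
  [TopologicalSpace H₂] {J : ModelWithCorners ℝ E₂ H₂} {S : Type*} [TopologicalSpace S]
  [ChartedSpace H₂ S] [IsManifold J ∞ S]
  {E : Type*} [NormedAddCommGroup E] [NormedSpace ℝ E] [FiniteDimensional ℝ E]
  {M : Type*} [TopologicalSpace M] [ChartedSpace E M] [IsManifold 𝓘(ℝ, E) ∞ M] {D : Distr E M}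

theorem zr_reach (hE : Module.finrank ℝ E = 4) (hD : Engel D) {A B : Data J E S M}
    (h : Reach D A B) {ι : Q → S} (hι : Chart J 1 ι) (hz : ZRm D A ι) : ZRm D B ι := by
  obtain ⟨γ, hγ, hF, rfl, rfl⟩ := h
  obtain ⟨θ, hθ, hp, h0⟩ := hz
  have hL := lf_of hE hD.2.1 (Y := UI × Q) (g := fun y => (γ y.1).f (ι y.2))
    (Φ := fun y => (F1 (γ y.1) (ι y.2)).comp (dq J ι y.2))
    (fun v => hγ.2.comp (continuous_fst.prodMk (continuous_const.prodMk
      ((tq_cont hι.loc v).comp continuous_snd))))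
    fun y => exists_tr hE hD (hF y.1) (ι y.2) (dq_surj hι.loc y.2)
  exact hL.homotopy (T := fun q => q + (0, 1)) (continuous_id.add continuous_const)
    (fun l q => by simp only [dq_per hι]; rw [chart_per hι]) hθ hp h0

theorem zr_of_tr (hE : Module.finrank ℝ E = 4) (hD : Engel D) {A : Data J E S M}
    (hA : A.Formal D) {ι : Q → S} (hι : Chart J 1 ι)
    (h : ∀ q, A.F 1 (ι q) (mfderiv 𝓘(ℝ, Q) J ι q ((0, 1) : Q)) ∉ derived D (A.f (ι q))) :
    ZRm D A ι := by
  have hL := lf_of hE hD.2.1 (Y := Q) (g := fun q => A.f (ι q))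
    (Φ := fun q => (F1 A (ι q)).comp (dq J ι q))
    (fun v => hA.2.1.comp (continuous_const.prodMk (tq_cont hι.loc v))) fun q => ⟨_, h q⟩
  obtain ⟨θ, hθ, hp, h0⟩ := hL.slope h
  exact ⟨θ, hθ, fun q => hp _ _ (by simp only [dq_per hι]; rw [chart_per hι]), h0⟩

theorem exists_lineField (hE : Module.finrank ℝ E = 4) (hD : Engel D) {A : Data J E S M}
    (hA : A.Formal D) {N : Type*} [TopologicalSpace N] [ChartedSpace Q N]
    [IsManifold 𝓘(ℝ, Q) ∞ N] {j : N → S} (hj : IsLocalDiffeomorph 𝓘(ℝ, Q) J ∞ j) :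
    ∃ L : N → Submodule ℝ Q, LineField L ∧ ∀ (p : N) (v : Q),
      v ∈ L p ↔ A.F 1 (j p) (mfderiv 𝓘(ℝ, Q) J j p v) ∈ derived D (A.f (j p)) := by
  let B : N → (Q →L[ℝ] E₂) := fun p => mfderiv 𝓘(ℝ, Q) J j p
  have hB : ∀ p, Function.Surjective (B p) := fun p =>
    (hj.mfderivToContinuousLinearEquiv (by simp) p).surjective
  have hc : Continuous fun z : TangentBundle 𝓘(ℝ, Q) N =>
      (⟨A.f (j z.1), F1 A (j z.1) (B z.1 z.2)⟩ : TangentBundle 𝓘(ℝ, E) M) :=
    hA.2.1.comp (continuous_const.prodMk (hj.contMDiff.continuous_tangentMap (by simp)))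
  refine ⟨fun p => Submodule.comap ((F1 A (j p)).comp (B p)).toLinearMap (derived D (A.f (j p))),
    fun p => ?_, fun p v => Iff.rfl⟩
  obtain ⟨U, hU, hp, α, hα, hk⟩ := exists_alpha hE hD.2.1 (A.f (j p))
  refine ⟨(fun x => A.f (j x)) ⁻¹' U,
    hU.preimage (hA.1.1.continuous.comp hj.contMDiff.continuous), hp,
    fun x => (α (A.f (j x))).comp ((F1 A (j x)).comp (B x)), fun z hz => ?_,
    fun x hx => ⟨fun e => ?_, fun v => (hk _ hx).2 _⟩⟩
  · exact (ContinuousAt.comp (f := fun z : TangentBundle 𝓘(ℝ, Q) N =>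
      (⟨A.f (j z.1), F1 A (j z.1) (B z.1 z.2)⟩ : TangentBundle 𝓘(ℝ, E) M))
      (hα ⟨A.f (j z.1), F1 A (j z.1) (B z.1 z.2)⟩ hz) hc.continuousAt).continuousWithinAt
  · obtain ⟨v, hv⟩ := exists_tr hE hD hA (j x) (hB x)
    exact hv (((hk _ hx).2 _).mpr (congrArg (fun T : Q →L[ℝ] ℝ => T v) e))

end Surface

end Pool.Agent.Lib.MP_72f1d0_gt.V3
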